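import Mathlib

open MeasureTheory

namespace Layer71

variable {d : ℕ}

open Classical in
/-- one peeling step: remove the vertices (extreme points) of the convex hull -/
noncomputable def peel (X : Finset (EuclideanSpace ℝ (Fin d))) : Finset (EuclideanSpace ℝ (Fin d)) :=
  X.filter fun x => x ∉ (convexHull ℝ (X : Set (EuclideanSpace ℝ (Fin d)))).extremePoints ℝ

lemma peel_card_lt {X : Finset (EuclideanSpace ℝ (Fin d))} (h : X.Nonempty) :
    (peel X).card < X.card := by
  classical
  obtain ⟨v, hv⟩ := (X.finite_toSet.isCompact_convexHull ℝ).extremePoints_nonempty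
    ((Finset.coe_nonempty.2 h).mono (subset_convexHull ℝ _))
  exact Finset.card_lt_card (Finset.filter_ssubset.2
    ⟨v, extremePoints_convexHull_subset hv, not_not.2 hv⟩)

lemma peel_ends (X : Finset (EuclideanSpace ℝ (Fin d))) : ∃ k, peel^[k] X = ∅ := by
  induction h : X.card using Nat.strong_induction_on generalizing X with
  | _ n ih =>
    rcases X.eq_empty_or_nonempty with rfl | hX
    · exact ⟨0, rfl⟩
    · obtain ⟨k, hk⟩ := ih _ (h ▸ peel_card_lt hX) (peel X) rfl
      exact ⟨k + 1, hk⟩

open Classical in
/-- the layer number: the least number of peeling steps that removes every point -/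
noncomputable def layer (X : Finset (EuclideanSpace ℝ (Fin d))) : ℕ := Nat.find (peel_ends X)

open Classical in
/-- `X` lies in a ball of radius `1` and is `α`-evenly distributed -/
def Evenly (α : ℝ) (X : Finset (EuclideanSpace ℝ (Fin d))) : Prop :=
  (∃ o, ∀ x ∈ X, x ∈ Metric.closedBall o 1) ∧ ∀ (z : EuclideanSpace ℝ (Fin d)) (r : ℝ), 0 < r →
    ((X.filter fun x => x ∈ Metric.closedBall z r).card : ℤ) ≤
      ⌈α * X.card * volume.real (Metric.closedBall z r)⌉

end Layer71
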