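import Mathlib

open MeasureTheory Metric Set Module
open scoped RealInnerProductSpace Pointwise

namespace Layer71

abbrev E (d : ℕ) := EuclideanSpace ℝ (Fin d)

variable {d : ℕ}

/-- volume of the unit ball -/
noncomputable def om (d : ℕ) : ℝ := volume.real (ball (0 : E d) 1)

lemma om_pos (d : ℕ) : 0 < om d :=
  ENNReal.toReal_pos (measure_ball_pos _ _ one_pos).ne' measure_ball_lt_top.ne

lemma vol_cb (x : E d) {r : ℝ} (hr : 0 ≤ r) : volume.real (closedBall x r) = r ^ d * om d := by
  rw [Measure.addHaar_real_closedBall volume x hr]; simp [om]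

lemma vol_b (x : E d) {r : ℝ} (hr : 0 < r) : volume.real (ball x r) = r ^ d * om d := by
  simp only [measureReal_def, om]
  rw [Measure.addHaar_ball_of_pos volume x hr, ENNReal.toReal_mul, ENNReal.toReal_ofReal (by positivity)]
  simp

lemma fin_of_sub {S : Set (E d)} {x : E d} {r : ℝ} (h : S ⊆ closedBall x r) : volume S ≠ ⊤ :=
  ne_top_of_le_ne_top measure_closedBall_lt_top.ne (measure_mono h)

def box (b : OrthonormalBasis (Fin d) ℝ (E d)) (z : E d) (w : Fin d → ℝ) : Set (E d) :=
  {x | ∀ s, |⟪b s, x - z⟫| ≤ w s}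

lemma vol_box (b : OrthonormalBasis (Fin d) ℝ (E d)) (z : E d) {w : Fin d → ℝ}
    (hw : ∀ s, 0 ≤ w s) : volume (box b z w) = ENNReal.ofReal (∏ s, 2 * w s) := by
  have h1 : MeasurePreserving (fun x : E d => WithLp.ofLp (b.repr (x - z))) volume volume :=
    (PiLp.volume_preserving_ofLp (Fin d)).comp
      (b.measurePreserving_repr.comp (measurePreserving_sub_right volume z))
  have h2 : box b z w = (fun x : E d => WithLp.ofLp (b.repr (x - z))) ⁻¹' (Icc (-w) w) := by
    ext x
    simp only [box, mem_ofPred_eq, mem_preimage, mem_Icc, Pi.le_def, Pi.neg_apply,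
      OrthonormalBasis.repr_apply_apply, abs_le]
    exact ⟨fun h => ⟨fun s => (h s).1, fun s => (h s).2⟩, fun h s => ⟨h.1 s, h.2 s⟩⟩
  rw [h2, h1.measure_preimage measurableSet_Icc.nullMeasurableSet, Real.volume_Icc_pi,
    ENNReal.ofReal_prod_of_nonneg (fun s _ => by have := hw s; positivity)]
  refine Finset.prod_congr rfl fun s _ => ?_
  congr 1; simp; ring

lemma real_le_box {b : OrthonormalBasis (Fin d) ℝ (E d)} {z : E d} {w : Fin d → ℝ}
    (hw : ∀ s, 0 ≤ w s) {S : Set (E d)} (h : S ⊆ box b z w) :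
    volume.real S ≤ ∏ s, 2 * w s := by
  refine ENNReal.toReal_le_of_le_ofReal
    (Finset.prod_nonneg fun s _ => by have := hw s; positivity) ?_
  rw [← vol_box b z hw]; exact measure_mono h

lemma balls_vol (Y : Finset (E d)) (hsep : ∀ x ∈ Y, ∀ y ∈ Y, x ≠ y → 1 ≤ dist x y) :
    volume.real (⋃ y ∈ Y, ball y (1 / 2)) = Y.card * ((1 / 2) ^ d * om d) := by
  rw [measureReal_biUnion_finset]
  · rw [Finset.sum_congr rfl (fun y _ => vol_b y (by norm_num : (0 : ℝ) < 1 / 2))]; simp
  · intro x hx y hy hxy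
    exact ball_disjoint_ball (by have := hsep x hx y hy hxy; linarith)
  · exact fun _ _ => measurableSet_ball

lemma pack {b : OrthonormalBasis (Fin d) ℝ (E d)} {z : E d} {w : Fin d → ℝ}
    (hw : ∀ s, 0 ≤ w s) (Y : Finset (E d)) (hsep : ∀ x ∈ Y, ∀ y ∈ Y, x ≠ y → 1 ≤ dist x y)
    (hY : ∀ y ∈ Y, y ∈ box b z w) :
    Y.card * ((1 / 2) ^ d * om d) ≤ ∏ s, (2 * w s + 1) := by
  rw [← balls_vol Y hsep]
  have := real_le_box (b := b) (z := z) (w := fun s => w s + 1 / 2)
    (fun s => by have := hw s; positivity) (S := ⋃ y ∈ Y, ball y (1 / 2)) (by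
      intro x hx
      simp only [mem_iUnion] at hx
      obtain ⟨y, hy, hxy⟩ := hx
      intro s
      have e : ⟪b s, x - z⟫ = ⟪b s, y - z⟫ + ⟪b s, x - y⟫ := by
        rw [← inner_add_right]; congr 1; abel
      have h1 := hY y hy s
      have h2 : |⟪b s, x - y⟫| ≤ 1 / 2 := by
        refine (abs_real_inner_le_norm _ _).trans ?_
        rw [b.orthonormal.1 s, one_mul, ← dist_eq_norm]; exact (mem_ball.1 hxy).le
      rw [e]; exact (abs_add_le _ _).trans (add_le_add h1 h2))
  refine this.trans (le_of_eq (Finset.prod_congr rfl fun s _ => by ring))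

lemma pack_ball (Y : Finset (E d)) (hsep : ∀ x ∈ Y, ∀ y ∈ Y, x ≠ y → 1 ≤ dist x y)
    {z : E d} {R : ℝ} (hR : 0 ≤ R) (hY : ∀ y ∈ Y, dist y z ≤ R) :
    (Y.card : ℝ) ≤ (2 * R + 1) ^ d := by
  have h1 := balls_vol Y hsep
  have h2 : volume.real (⋃ y ∈ Y, ball y (1 / 2)) ≤ volume.real (closedBall z (R + 1 / 2)) := by
    refine measureReal_mono ?_ measure_closedBall_lt_top.ne
    intro x hx
    simp only [mem_iUnion] at hx
    obtain ⟨y, hy, hxy⟩ := hx
    have := dist_triangle x y z
    have := hY y hy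
    have := mem_ball.1 hxy
    rw [mem_closedBall]; linarith
  rw [h1, vol_cb z (by positivity)] at h2
  have h3 : (R + 1 / 2) ^ d = (2 * R + 1) ^ d * (1 / 2) ^ d := by
    rw [← mul_pow]; congr 1; ring
  rw [h3, mul_assoc] at h2
  exact le_of_mul_le_mul_right h2 (by have := om_pos d; positivity)

lemma center {P : Set (E d)} (hc : IsCompact P) (hv : Convex ℝ P) (hne : P.Nonempty) :
    ∃ c ∈ P, ∀ q ∈ P, c - (1 / ((d : ℝ) + 1)) • (q - c) ∈ P := by
  classical
  have hd : (0 : ℝ) < (d : ℝ) + 1 := by positivity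
  let F : P → Set (E d) := fun q =>
    (fun a => (1 / ((d : ℝ) + 2)) • (q : E d) + (((d : ℝ) + 1) / ((d : ℝ) + 2)) • a) '' P
  have hF : (⋂ q, F q).Nonempty := by
    refine Convex.helly_theorem_compact' (𝕜 := ℝ) (fun q => ?_) (fun q => ?_) (fun I hI => ?_)
    · have := (hv.smul (((d : ℝ) + 1) / ((d : ℝ) + 2))).translate ((1 / ((d : ℝ) + 2)) • (q : E d))
      have e : F q = (fun x => (1 / ((d : ℝ) + 2)) • (q : E d) + x) ''
          ((((d : ℝ) + 1) / ((d : ℝ) + 2)) • P) := by
        simp only [F, ← Set.image_smul, Set.image_image]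
      rw [e]; exact this
    · exact hc.image (by fun_prop)
    · rcases I.eq_empty_or_nonempty with rfl | hI0
      · simp
      have hk : (0 : ℝ) < I.card := by exact_mod_cast hI0.card_pos
      have hk2 : (I.card : ℝ) ≤ d + 1 := by
        simp only [finrank_euclideanSpace, Fintype.card_fin] at hI; exact_mod_cast hI
      refine ⟨∑ j ∈ I, (1 / (I.card : ℝ)) • (j : E d), ?_⟩
      simp only [mem_iInter]
      intro i hi
      refine ⟨∑ j ∈ I, ((((d : ℝ) + 2) / (((d : ℝ) + 1) * I.card)) -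
        (if j = i then 1 / ((d : ℝ) + 1) else 0)) • (j : E d), ?_, ?_⟩
      · refine hv.sum_mem (fun j _ => ?_) ?_ (fun j _ => j.2)
        · split_ifs
          · rw [sub_nonneg, div_le_div_iff₀ hd (by positivity)]; nlinarith
          · simp only [sub_zero]; positivity
        · rw [Finset.sum_sub_distrib, Finset.sum_ite_eq' I i, if_pos hi]
          simp only [Finset.sum_const, nsmul_eq_mul]
          field_simp; ring
      · simp only [sub_smul, Finset.sum_sub_distrib, ite_smul, zero_smul,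
          Finset.sum_ite_eq' I i, if_pos hi, smul_sub, Finset.smul_sum, smul_smul]
        have e1 : ((d : ℝ) + 1) / ((d : ℝ) + 2) * (((d : ℝ) + 2) / (((d : ℝ) + 1) * I.card)) =
            1 / (I.card : ℝ) := by field_simp
        have e2 : ((d : ℝ) + 1) / ((d : ℝ) + 2) * (1 / ((d : ℝ) + 1)) = 1 / ((d : ℝ) + 2) := by
          field_simp
        rw [e1, e2]; abel
  obtain ⟨c, hc'⟩ := hF
  simp only [mem_iInter] at hc'
  refine ⟨c, ?_, fun q hq => ?_⟩
  · obtain ⟨q, hq⟩ := hne
    obtain ⟨a, ha, e⟩ := hc' ⟨q, hq⟩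
    rw [← e]
    exact hv hq ha (by positivity) (by positivity) (by field_simp; ring)
  · obtain ⟨a, ha, e⟩ := hc' ⟨q, hq⟩
    convert ha using 1
    rw [← e]
    simp only
    match_scalars <;> (field_simp; ring)

lemma core {P : Set (E d)} (hc : IsCompact P) (hv : Convex ℝ P) {t : ℝ} (ht0 : 0 < t)
    (ht1 : t ≤ 1) :
    ∃ Q ⊆ P, MeasurableSet Q ∧ volume.real P ≤ volume.real Q + d * t * volume.real P ∧
      ∀ p ∈ Q, ∀ q ∈ P, p - (t / ((d : ℝ) + 2)) • (q - p) ∈ P := by
  rcases P.eq_empty_or_nonempty with rfl | hne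
  · exact ⟨∅, subset_rfl, MeasurableSet.empty, by simp, by simp⟩
  obtain ⟨c, hcP, hc'⟩ := center hc hv hne
  refine ⟨AffineMap.homothety c (1 - t) '' P, ?_, ?_, ?_, ?_⟩
  · rintro _ ⟨a, ha, rfl⟩
    have := hv hcP ha (a := t) (b := 1 - t) ht0.le (by linarith) (by ring)
    convert this using 1
    simp only [AffineMap.homothety_apply, vsub_eq_sub, vadd_eq_add]
    module
  · exact (hc.image (AffineMap.homothety_continuous c (1 - t))).measurableSet
  · simp only [measureReal_def]
    rw [Measure.addHaar_image_homothety, ENNReal.toReal_mul, ENNReal.toReal_ofReal (abs_nonneg _)]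
    simp only [finrank_euclideanSpace, Fintype.card_fin]
    rw [abs_of_nonneg (pow_nonneg (by linarith) _)]
    have h1 : 1 + (d : ℝ) * (-t) ≤ (1 + -t) ^ d := one_add_mul_le_pow (by linarith) d
    have h2 : 0 ≤ (volume P).toReal := ENNReal.toReal_nonneg
    rw [sub_eq_add_neg]; nlinarith
  · rintro _ ⟨a, ha, rfl⟩ q hq
    have hq' := hc' q hq
    set ε := t / ((d : ℝ) + 2) with hε
    have hε0 : 0 < ε := by positivity
    have hεt : ε * ((d : ℝ) + 2) = t := by rw [hε]; field_simp
    have h3 := hv.sum_mem (t := Finset.univ)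
      (w := ![(1 + ε) * (1 - t), ε * ((d : ℝ) + 1), 1 - (1 + ε) * (1 - t) - ε * ((d : ℝ) + 1)])
      (z := ![a, c - (1 / ((d : ℝ) + 1)) • (q - c), c]) ?_ ?_ ?_
    · convert h3 using 1
      simp only [AffineMap.homothety_apply, vsub_eq_sub, vadd_eq_add, Fin.sum_univ_three,
        Matrix.cons_val_zero, Matrix.cons_val_one, Matrix.cons_val]
      match_scalars <;> (field_simp; try ring)
    · intro i _
      fin_cases i
      · exact mul_nonneg (by linarith) (by linarith)
      · show 0 ≤ ε * ((d : ℝ) + 1); positivity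
      · show 0 ≤ 1 - (1 + ε) * (1 - t) - ε * ((d : ℝ) + 1); nlinarith
    · simp [Fin.sum_univ_three]
    · intro i _
      fin_cases i
      · exact ha
      · exact hq'
      · exact hcP

end Layer71
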