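import Mathlib

open Metric Set Module
open scoped RealInnerProductSpace

namespace Layer71

lemma exists_net {M : Type*} [PseudoMetricSpace M] {K : Set M} (hK : IsCompact K) {θ : ℝ}
    (hθ : 0 < θ) (A0 : Finset M) (h0 : ∀ x ∈ A0, x ∈ K)
    (h1 : ∀ x ∈ A0, ∀ y ∈ A0, x ≠ y → θ ≤ dist x y) :
    ∃ A : Finset M, A0 ⊆ A ∧ (∀ x ∈ A, x ∈ K) ∧ (∀ x ∈ A, ∀ y ∈ A, x ≠ y → θ ≤ dist x y) ∧
      ∀ x ∈ K, ∃ a ∈ A, dist x a < θ := by
  classical
  obtain ⟨t, -, htf, hcov⟩ := finite_cover_balls_of_compact hK (half_pos hθ)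
  let G : Finset M → Prop := fun A =>
    A0 ⊆ A ∧ (∀ x ∈ A, x ∈ K) ∧ (∀ x ∈ A, ∀ y ∈ A, x ≠ y → θ ≤ dist x y)
  have hb : BddAbove {n | ∃ A, G A ∧ A.card = n} := by
    refine ⟨htf.toFinset.card, ?_⟩
    rintro _ ⟨A, ⟨-, a, b⟩, rfl⟩
    have : ∀ x ∈ A, ∃ y ∈ t, x ∈ ball y (θ / 2) := fun x hx => by
      simpa using hcov (a x hx)
    choose! f hf1 hf2 using this
    refine Finset.card_le_card_of_injOn f (fun x hx => by simpa using hf1 x hx) ?_
    intro x hx y hy e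
    by_contra hne
    have := b x hx y hy hne
    have c1 := mem_ball.1 (hf2 x hx)
    have c2 := mem_ball.1 (hf2 y hy)
    rw [e] at c1
    linarith [dist_triangle_right x y (f y)]
  obtain ⟨A, hA, hc⟩ := Nat.sSup_mem (s := {n | ∃ A, G A ∧ A.card = n})
    ⟨A0.card, A0, ⟨subset_rfl, h0, h1⟩, rfl⟩ hb
  refine ⟨A, hA.1, hA.2.1, hA.2.2, fun x hx => ?_⟩
  by_contra hn
  push Not at hn
  have hxA : x ∉ A := fun h => by have := hn x h; rw [dist_self] at this; linarith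
  have hG : G (insert x A) := by
    refine ⟨hA.1.trans (Finset.subset_insert _ _), fun y hy => ?_, fun y hy z hz hyz => ?_⟩
    · rcases Finset.mem_insert.1 hy with rfl | hy
      exacts [hx, hA.2.1 y hy]
    · rcases Finset.mem_insert.1 hy with a | a <;> rcases Finset.mem_insert.1 hz with b | b
      · exact absurd (a.trans b.symm) hyz
      · rw [a]; exact hn z b
      · rw [b, dist_comm]; exact hn y a
      · exact hA.2.2 y a z b hyz
  have := le_csSup hb ⟨_, hG, rfl⟩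
  rw [Finset.card_insert_of_notMem hxA, ← hc] at this
  omega

variable {V : Type} [NormedAddCommGroup V] [InnerProductSpace ℝ V]

lemma ball_sub_hull {A : Finset V} {R : ℝ} (hne : A.Nonempty)
    (h : ∀ p : V, ‖p‖ = 1 → ∃ a ∈ convexHull ℝ (A : Set V), R ≤ ⟪p, a⟫) {x : V} (hx : ‖x‖ ≤ R) :
    x ∈ convexHull ℝ (A : Set V) := by
  obtain ⟨a, ha, e⟩ := exists_norm_eq_iInf_of_complete_convex
    ((Finset.coe_nonempty.2 hne).mono (subset_convexHull ℝ _))
    (A.finite_toSet.isCompact_convexHull ℝ).isComplete (convex_convexHull ℝ _) x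
  have h2 := (norm_eq_iInf_iff_real_inner_le_zero (convex_convexHull ℝ _) ha).1 e
  by_contra hn
  have hxa : x - a ≠ 0 := fun e => hn (sub_eq_zero.1 e ▸ ha)
  have hpos : 0 < ‖x - a‖ := norm_pos_iff.2 hxa
  obtain ⟨w, hw, hR⟩ := h (‖x - a‖⁻¹ • (x - a))
    (by rw [norm_smul, norm_inv, norm_norm, inv_mul_cancel₀ hpos.ne'])
  rw [real_inner_smul_left, le_inv_mul_iff₀ hpos] at hR
  have a1 := h2 w hw
  have a2 : ⟪x - a, x - a⟫ = ‖x - a‖ ^ 2 := real_inner_self_eq_norm_sq _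
  have a3 := real_inner_le_norm (x - a) x
  rw [inner_sub_right] at a1
  rw [inner_sub_right] at a2
  nlinarith [mul_le_mul_of_nonneg_left hx hpos.le]

/-- nested finite sets: `T` pairwise disjoint layers, `1`-separated, in the ball of radius `W` -/
structure Tower (W : ℝ) (T : ℕ) (S : ℕ → Finset V) : Prop where
  bdd : ∀ t < T, ∀ x ∈ S t, ‖x‖ ≤ W
  sep : ∀ s < T, ∀ t < T, ∀ x ∈ S s, ∀ y ∈ S t, x ≠ y ∨ s ≠ t → 1 ≤ dist x y
  nest : ∀ t, t + 1 < T → ∀ x ∈ S (t + 1), x ∈ convexHull ℝ (S t : Set V)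
  zero : ∀ t < T, (0 : V) ∈ convexHull ℝ (S t : Set V)

lemma tower_one {W : ℝ} (hW : 0 ≤ W) : Tower W 1 (fun _ => ({0} : Finset V)) where
  bdd := by simpa using hW
  sep := by
    intro s hs t ht x hx y hy h
    simp only [Finset.mem_singleton] at hx hy
    rcases h with h | h
    · exact absurd (hx.trans hy.symm) h
    · omega
  nest := by intro t ht; omega
  zero := by simp

lemma tower_step [FiniteDimensional ℝ V] [Nontrivial V] {W : ℝ} (hW : 40 ≤ W) {T K : ℕ}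
    (hT : 0 < T) (hK : (K : ℝ) ≤ W / 40)
    (H : ∀ u : V, u ≠ 0 → ∃ S : ℕ → Finset (ℝ ∙ u)ᗮ, Tower (√W) T S) :
    ∃ S : ℕ → Finset V, Tower W (K * T) S := by
  classical
  obtain ⟨ρ, hρ, hρ0, hρ2⟩ : ∃ ρ, √W = ρ ∧ 0 < ρ ∧ ρ ^ 2 = W :=
    ⟨_, rfl, Real.sqrt_pos.2 (by linarith), Real.sq_sqrt (by linarith)⟩
  rw [hρ] at H
  have hρ1 : 1 ≤ ρ := by
    by_contra a
    push Not at a
    nlinarith
  obtain ⟨N, -, hN1, hN2, hN3⟩ := exists_net (isCompact_sphere (0 : V) 1) (θ := 6 / ρ)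
    (by positivity) ∅ (by simp) (by simp)
  have hN1' : ∀ u ∈ N, ‖u‖ = 1 := fun u hu => by simpa using hN1 u hu
  have H' : ∀ u : V, ∃ S : ℕ → Finset (ℝ ∙ u)ᗮ, u ≠ 0 → Tower ρ T S := fun u => by
    by_cases h : u = 0
    · exact ⟨fun _ => ∅, fun a => absurd h a⟩
    · obtain ⟨S, hS⟩ := H u h; exact ⟨S, fun _ => hS⟩
  choose S hS using H'
  have hS' : ∀ u ∈ N, Tower ρ T (S u) := fun u hu =>
    hS u (by intro e; have := hN1' u hu; rw [e, norm_zero] at this; linarith)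
  let R : ℕ → ℝ := fun k => W - 1 - 19 * k
  let f : (u : V) → ℝ → (ℝ ∙ u)ᗮ →ᵃ[ℝ] V := fun u a =>
    (ℝ ∙ u)ᗮ.subtype.toAffineMap + AffineMap.const ℝ _ (a • u)
  have hf : ∀ u a y, f u a y = (y : V) + a • u := fun u a y => rfl
  let Z : ℕ → ℕ → Finset V := fun k t => N.biUnion fun u => (S u t).image (f u (R k))
  have hZ : ∀ k t x, x ∈ Z k t ↔ ∃ u ∈ N, ∃ y ∈ S u t, (y : V) + R k • u = x := by
    intro k t x; simp [Z, hf]
  have hR : ∀ k < K, W / 2 ≤ R k := fun k hk => by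
    have : (k : ℝ) ≤ K := by exact_mod_cast hk.le
    simp only [R]; linarith
  have hnorm : ∀ k < K, ∀ t < T, ∀ x ∈ Z k t, R k ≤ ‖x‖ ∧ ‖x‖ ≤ R k + 1 := by
    intro k hk t ht x hx
    obtain ⟨u, hu, y, hy, rfl⟩ := (hZ _ _ _).1 hx
    have a : ⟪(y : V), u⟫ = 0 := Submodule.mem_orthogonal_singleton_iff_inner_left.1 y.2
    have b : ‖(y : V) + R k • u‖ ^ 2 = ‖(y : V)‖ ^ 2 + R k ^ 2 := by
      rw [norm_add_sq_real, inner_smul_right, a, norm_smul, hN1' u hu, Real.norm_eq_abs, mul_one,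
        sq_abs]; ring
    have c : ‖(y : V)‖ ≤ ρ := (hS' u hu).bdd t ht y hy
    have e := hR k hk
    have g : ‖(y : V)‖ ^ 2 ≤ ρ ^ 2 := by gcongr
    constructor
    · exact (sq_le_sq₀ (by linarith) (norm_nonneg _)).1 (by rw [b]; nlinarith [norm_nonneg (y : V)])
    · exact (sq_le_sq₀ (norm_nonneg _) (by linarith)).1 (by rw [b]; nlinarith)
  have hhull : ∀ k t, ∀ u ∈ N, ∀ y ∈ convexHull ℝ (S u t : Set (ℝ ∙ u)ᗮ),
      (y : V) + R k • u ∈ convexHull ℝ (Z k t : Set V) := by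
    intro k t u hu y hy
    have a : f u (R k) y ∈ f u (R k) '' convexHull ℝ (S u t : Set (ℝ ∙ u)ᗮ) := ⟨y, hy, rfl⟩
    rw [AffineMap.image_convexHull] at a
    refine convexHull_mono ?_ a
    rintro _ ⟨z, hz, rfl⟩
    exact (hZ _ _ _).2 ⟨u, hu, z, hz, rfl⟩
  have hball : ∀ k < K, ∀ t < T, ∀ x : V, ‖x‖ ≤ R k - 18 → x ∈ convexHull ℝ (Z k t : Set V) := by
    intro k hk t ht x hx
    have key : ∀ p : V, ‖p‖ = 1 → ∃ a ∈ convexHull ℝ (Z k t : Set V), R k - 18 ≤ ⟪p, a⟫ := by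
      intro p hp
      obtain ⟨u, hu, hpu⟩ := hN3 p (by simpa using hp)
      refine ⟨_, hhull k t u hu 0 ((hS' u hu).zero t ht), ?_⟩
      rw [ZeroMemClass.coe_zero, zero_add, inner_smul_right]
      have a := norm_sub_sq_real p u
      rw [hp, hN1' u hu] at a
      rw [dist_eq_norm, lt_div_iff₀ hρ0] at hpu
      have b : (‖p - u‖ * ρ) ^ 2 ≤ 6 ^ 2 := by gcongr
      rw [mul_pow, hρ2] at b
      have e := hR k hk
      have e2 : R k ≤ W := by simp only [R]; linarith [(Nat.cast_nonneg k : (0 : ℝ) ≤ k)]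
      nlinarith [mul_le_mul_of_nonneg_left e2 (sq_nonneg ‖p - u‖)]
    obtain ⟨p, hp⟩ := exists_norm_eq V zero_le_one
    obtain ⟨a, ha, -⟩ := key p hp
    exact ball_sub_hull (Finset.coe_nonempty.1 (convexHull_nonempty_iff.1 ⟨a, ha⟩)) key hx
  have hdiv : ∀ t < K * T, t / T < K := fun t ht => Nat.div_lt_of_lt_mul (by rwa [mul_comm])
  have hmod : ∀ t, t % T < T := fun t => Nat.mod_lt t hT
  refine ⟨fun t => Z (t / T) (t % T), ?_, ?_, ?_, ?_⟩
  · intro t ht x hx
    have := (hnorm _ (hdiv t ht) _ (hmod t) x hx).2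
    simp only [R] at this
    linarith [(Nat.cast_nonneg (t / T) : (0 : ℝ) ≤ _)]
  · intro s hs t ht x hx y hy hne
    have key : ∀ a b : ℕ, a < b → b < K → ∀ s < T, ∀ t < T, ∀ x ∈ Z a s, ∀ y ∈ Z b t,
        1 ≤ dist x y := by
      intro a b hab hb s hs t ht x hx y hy
      have c1 := (hnorm a (hab.trans hb) s hs x hx).1
      have c2 := (hnorm b hb t ht y hy).2
      have c3 : (a : ℝ) + 1 ≤ b := by exact_mod_cast hab
      have c4 := norm_sub_norm_le x y
      simp only [R] at c1 c2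
      rw [dist_eq_norm]; linarith
    rcases lt_trichotomy (s / T) (t / T) with l | l | l
    · exact key _ _ l (hdiv t ht) _ (hmod s) _ (hmod t) x hx y hy
    · rw [l] at hx
      obtain ⟨u, hu, a, ha, rfl⟩ := (hZ _ _ _).1 hx
      obtain ⟨v, hv, b, hb, rfl⟩ := (hZ _ _ _).1 hy
      by_cases huv : u = v
      · subst huv
        rw [dist_add_right]
        refine (hS' u hu).sep _ (hmod s) _ (hmod t) a ha b hb ?_
        rcases hne with h | h
        · exact Or.inl fun e => h (by rw [e])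
        · refine Or.inr fun e => h ?_
          rw [← Nat.div_add_mod s T, ← Nat.div_add_mod t T, l, e]
      · have c1 := hN2 u hu v hv huv
        have c2 : ‖(a : V)‖ ≤ ρ := (hS' u hu).bdd _ (hmod s) a ha
        have c3 : ‖(b : V)‖ ≤ ρ := (hS' v hv).bdd _ (hmod t) b hb
        have c4 := hR _ (hdiv t ht)
        have e : R (t / T) • (u - v) = ((a : V) + R (t / T) • u - ((b : V) + R (t / T) • v)) -
            a + b := by rw [smul_sub]; abel
        have c5 := norm_add_le (((a : V) + R (t / T) • u - ((b : V) + R (t / T) • v)) - a) b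
        have c6 := norm_sub_le ((a : V) + R (t / T) • u - ((b : V) + R (t / T) • v)) a
        rw [← e, norm_smul, Real.norm_of_nonneg (by linarith)] at c5
        rw [dist_eq_norm, div_le_iff₀ hρ0] at c1
        rw [dist_eq_norm]
        have c7 : 3 * ρ ≤ R (t / T) * ‖u - v‖ := by
          have : ρ ^ 2 / 2 * ‖u - v‖ ≤ R (t / T) * ‖u - v‖ := by rw [hρ2]; gcongr
          nlinarith
        linarith
    · rw [dist_comm]; exact key _ _ l (hdiv s hs) _ (hmod t) _ (hmod s) y hy x hx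
  · intro t ht x hx
    by_cases h : T ∣ t + 1
    · have e : (t + 1) / T = t / T + 1 := Nat.succ_div_of_dvd h
      refine hball _ (hdiv t (by omega)) _ (hmod t) x ?_
      have := (hnorm _ (hdiv _ ht) _ (hmod _) x hx).2
      rw [e] at this
      simp only [R] at this ⊢
      push_cast at this
      linarith
    · have e : (t + 1) / T = t / T := Nat.succ_div_of_not_dvd h
      have e2 : (t + 1) % T = t % T + 1 := by
        have a := Nat.div_add_mod (t + 1) T
        have b := Nat.div_add_mod t T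
        rw [e] at a; omega
      simp only [e, e2] at hx
      obtain ⟨u, hu, y, hy, rfl⟩ := (hZ _ _ _).1 hx
      exact hhull _ _ u hu y ((hS' u hu).nest _ (e2 ▸ hmod (t + 1)) y hy)
  · intro t ht
    refine hball _ (hdiv t ht) _ (hmod t) 0 ?_
    have := hR _ (hdiv t ht)
    rw [norm_zero]; linarith

lemma towers (d : ℕ) : ∃ κ : ℝ, 0 < κ ∧ ∀ W : ℝ, 1 ≤ W → ∃ T : ℕ,
    κ * W ^ (2 - 2 / 2 ^ d : ℝ) ≤ T ∧ ∀ (V : Type) [NormedAddCommGroup V] [InnerProductSpace ℝ V]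
      [FiniteDimensional ℝ V], finrank ℝ V = d → ∃ S : ℕ → Finset V, Tower W T S := by
  induction d with
  | zero => exact ⟨1, one_pos, fun W hW => ⟨1, by simp, fun V _ _ _ _ => ⟨_, tower_one (by linarith)⟩⟩⟩
  | succ d ih =>
    obtain ⟨κ, hκ, H⟩ := ih
    refine ⟨min (κ / 80) (1 / 1600), by positivity, fun W hW => ?_⟩
    have hW0 : 0 < W := by linarith
    by_cases h40 : 40 ≤ W
    · obtain ⟨T, hT, HT⟩ := H (√W) (Real.one_le_sqrt.2 hW)
      have hpos : 0 < κ * √W ^ (2 - 2 / 2 ^ d : ℝ) :=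
        mul_pos hκ (Real.rpow_pos_of_pos (Real.sqrt_pos.2 hW0) _)
      have hT0 : 0 < T := by exact_mod_cast hpos.trans_le hT
      refine ⟨⌊W / 40⌋₊ * T, ?_, fun V _ _ _ hV => ?_⟩
      · have a : W / 80 ≤ ⌊W / 40⌋₊ := by
          have a1 := Nat.lt_floor_add_one (W / 40)
          have a2 : (1 : ℝ) ≤ ⌊W / 40⌋₊ := by
            exact_mod_cast Nat.one_le_floor_iff _ |>.2 (by linarith)
          linarith
        have e : W ^ (2 - 2 / 2 ^ (d + 1) : ℝ) = W * √W ^ (2 - 2 / 2 ^ d : ℝ) := by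
          rw [Real.sqrt_eq_rpow, ← Real.rpow_mul hW0.le, ← Real.rpow_one_add' hW0.le]
          · congr 1; field_simp; ring
          · have : (2 : ℝ) / 2 ^ d ≤ 2 := div_le_self zero_le_two (one_le_pow₀ one_le_two)
            linarith
        push_cast
        rw [e]
        calc _ ≤ κ / 80 * (W * √W ^ (2 - 2 / 2 ^ d : ℝ)) := by gcongr; exact min_le_left _ _
          _ = W / 80 * (κ * √W ^ (2 - 2 / 2 ^ d : ℝ)) := by ring
          _ ≤ _ := by gcongr
      · have : Fact (finrank ℝ V = d + 1) := ⟨hV⟩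
        have : Nontrivial V := Module.nontrivial_of_finrank_eq_succ hV
        exact tower_step h40 hT0 (Nat.floor_le (by positivity)) fun u hu =>
          HT _ (Submodule.finrank_orthogonal_span_singleton hu)
    · refine ⟨1, ?_, fun V _ _ _ _ => ⟨_, tower_one hW0.le⟩⟩
      have a : W ^ (2 - 2 / 2 ^ (d + 1) : ℝ) ≤ W ^ (2 : ℝ) :=
        Real.rpow_le_rpow_of_exponent_le hW (by
          have : (0 : ℝ) < 2 / 2 ^ (d + 1) := by positivity
          linarith)
      rw [Real.rpow_two] at a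
      have b : W ^ 2 ≤ 40 ^ 2 := by gcongr; linarith
      have c := mul_le_mul (min_le_right (κ / 80) (1 / 1600)) (a.trans b)
        (Real.rpow_nonneg hW0.le _) (by norm_num)
      refine c.trans (by norm_num)

end Layer71
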