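import Pool.Agent.Lib.MP_71cb23_co.Step2

open MeasureTheory Metric Set Module
open scoped RealInnerProductSpace

namespace Layer71

variable {d : ℕ}

lemma prod_pow (c : ℝ) (j : ℕ) : (∏ s ∈ Finset.range j, c ^ 2 ^ s) * c = c ^ 2 ^ j := by
  induction j with
  | zero => simp
  | succ j ih => rw [Finset.prod_range_succ, mul_right_comm, ih, ← pow_add]; congr 1; ring

lemma prod_A (C c : ℝ) (j : ℕ) : ∏ s ∈ Finset.range j, 2 * (C * c ^ 2 ^ s) =
    (2 * C) ^ j * ∏ s ∈ Finset.range j, c ^ 2 ^ s := by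
  simp only [← mul_assoc]
  rw [Finset.prod_mul_distrib, Finset.prod_const, Finset.card_range]

lemma levels (j : ℕ) (hj : j + 1 ≤ d) : ∀ η : ℝ, 0 < η → ∃ C : ℝ, 0 < C ∧ ∃ c0 : ℝ, ∀ c : ℝ,
    c0 ≤ c → 1 ≤ c → ∀ (W : ℝ) (T : ℕ) (X : ℕ → Finset (E d)), W = c ^ 2 ^ (d - 1) → Chain W T X →
      W ^ 2 ≤ T * c → ∑ i ∈ Finset.range T, badM W X j (fun s => C * c ^ 2 ^ s) i ≤
        η * T * (W ^ d * om d) := by
  induction j with
  | zero =>
    intro η hη
    refine ⟨1, one_pos, 1, fun c _ hc W T X hW _ _ => ?_⟩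
    have := om_pos d
    rw [Finset.sum_eq_zero, hW]
    · positivity
    · intro i _
      exact Finset.sum_eq_zero fun v hv => absurd (thin_zero _ _) (mem_badV.1 hv).2
  | succ j ih =>
    intro η hη
    have hd : (1 : ℝ) ≤ d := by exact_mod_cast (show 1 ≤ d by omega)
    have hom := om_pos d
    obtain ⟨η1, h1, h2, h3⟩ : ∃ η1 : ℝ, 0 < η1 ∧ η1 ≤ 1 / 10 ∧ 8 * η1 ≤ η :=
      ⟨min η 1 / 10, by positivity, by linarith [min_le_right η 1], by linarith [min_le_left η 1]⟩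
    obtain ⟨C, hC, c0, H⟩ := ih (by omega) η1 h1
    obtain ⟨K, hK⟩ : ∃ K : ℝ, K = 8 * d ^ 4 / η1 := ⟨_, rfl⟩
    have hK0 : 0 < K := by rw [hK]; positivity
    have hKη : K * η1 = 8 * d ^ 4 := by rw [hK]; field_simp
    have hd4 : (1 : ℝ) ≤ d ^ 4 := one_le_pow₀ hd
    obtain ⟨K1, hK1, hK1'⟩ : ∃ K1 : ℝ, 1 ≤ K1 ∧ (4 * K + 1) ^ j * 3 ^ (d - j) * (2 * C) ^ j *
        4 ^ (d - j) ≤ K1 * (om d / 2 * ((1 / 2) ^ d * om d)) :=
      ⟨max 1 ((4 * K + 1) ^ j * 3 ^ (d - j) * (2 * C) ^ j * 4 ^ (d - j) /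
        (om d / 2 * ((1 / 2) ^ d * om d))), le_max_left _ _,
        (div_le_iff₀ (by positivity)).1 (le_max_right _ _)⟩
    obtain ⟨t, ht⟩ : ∃ t : ℝ, t = η1 / d := ⟨_, rfl⟩
    have ht0 : 0 < t := by rw [ht]; positivity
    have htd : d * t = η1 := by rw [ht]; field_simp
    have ht1 : t ≤ 1 := by nlinarith
    refine ⟨C + (6 * K / (t / ((d : ℝ) + 2)) + 2 * K * j * C) * K1, by positivity,
      max c0 (2 * d * K1 / η1), fun c hc0 hc W T X hW hX hT => ?_⟩
    have IH := H c ((le_max_left _ _).trans hc0) hc W T X hW hX hT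
    have hc2 : 2 * d * K1 ≤ c * η1 := (div_le_iff₀ h1).1 ((le_max_right _ _).trans hc0)
    set u := ∏ s ∈ Finset.range j, c ^ 2 ^ s with hu
    have hu1 : 1 ≤ u := Finset.one_le_prod fun s _ => one_le_pow₀ hc
    set Z := c ^ 2 ^ j with hZ
    have huZ : u * c = Z := prod_pow c j
    have hcZ : c ≤ Z := le_self_pow₀ hc (by positivity)
    have hZW : Z ^ 2 ≤ W := by
      rw [hW, hZ, ← pow_mul, ← pow_succ]
      exact pow_le_pow_right₀ hc (Nat.pow_le_pow_right two_pos (by omega))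
    have hZ1 : 1 ≤ Z := hc.trans hcZ
    have hW1 : Z ≤ W := by nlinarith
    have hW0 : 0 < W := by linarith
    have hWT : W ≤ T := by
      by_contra a
      push Not at a
      nlinarith [(Nat.cast_nonneg T : (0 : ℝ) ≤ T)]
    obtain ⟨r, hr0, hr2⟩ : ∃ r : ℝ, 0 < r ∧ r ^ 2 = K1 * Z :=
      ⟨√(K1 * Z), Real.sqrt_pos.2 (by positivity), Real.sq_sqrt (by positivity)⟩
    have hr1 : 1 ≤ r := by
      by_contra a
      push Not at a
      nlinarith
    obtain ⟨m, hm1, hm2⟩ : ∃ m : ℕ, K1 * u < m ∧ (m : ℝ) ≤ 2 * (K1 * u) :=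
      ⟨⌊K1 * u⌋₊ + 1, by push_cast; exact Nat.lt_floor_add_one _, by
        push_cast; nlinarith [Nat.floor_le (show 0 ≤ K1 * u by positivity)]⟩
    have hm0 : 0 < m := by
      have : (0 : ℝ) < m := lt_trans (by positivity) hm1
      exact_mod_cast this
    have hKZ : 2 * d * (K1 * Z) ≤ η1 * W := by
      have a : 2 * d * K1 ≤ Z * η1 := hc2.trans (mul_le_mul_of_nonneg_right hcZ h1.le)
      nlinarith [mul_le_mul_of_nonneg_right a (show 0 ≤ Z by linarith)]
    have hdr : 2 * d * r ≤ η1 * W := by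
      have : r ≤ K1 * Z := by nlinarith
      nlinarith
    have e1 : 2 * (K * r ^ 2) / r = 2 * K * r := by field_simp
    have key := hX.step hW0 hm0 (show j < d by omega) (A := fun s => C * c ^ 2 ^ s)
      (A' := fun s => (C + (6 * K / (t / ((d : ℝ) + 2)) + 2 * K * j * C) * K1) * c ^ 2 ^ s)
      (fun s => by positivity)
      (fun s _ => mul_le_mul_of_nonneg_right (le_add_of_nonneg_right (by positivity))
        (by positivity)) hr0 (D := K * r ^ 2) (by positivity) ht0 ht1 (by nlinarith) (by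
        have a : ∑ s ∈ Finset.range j, C * c ^ 2 ^ s ≤ j * (C * r) := by
          refine (Finset.sum_le_card_nsmul _ _ (C * r) fun s hs => ?_).trans (by simp)
          refine mul_le_mul_of_nonneg_left ?_ hC.le
          refine (sq_le_sq₀ (by positivity) hr0.le).1 ?_
          have : (c ^ 2 ^ s) ^ 2 ≤ Z := by
            rw [hZ, ← pow_mul, ← pow_succ]
            exact pow_le_pow_right₀ hc (Nat.pow_le_pow_right two_pos (Finset.mem_range.1 hs))
          nlinarith
        rw [e1, ← hZ]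
        have b := mul_le_mul_of_nonneg_left a (show 0 ≤ 2 * K * r by positivity)
        have e2 : (C + (6 * K / (t / ((d : ℝ) + 2)) + 2 * K * j * C) * K1) * Z =
            C * Z + 6 * (K * r ^ 2) / (t / ((d : ℝ) + 2)) + 2 * K * r * (j * (C * r)) := by
          have : 2 * K * r * (j * (C * r)) = 2 * K * j * C * r ^ 2 := by ring
          rw [this, hr2]; ring
        rw [e2]
        have : 0 ≤ C * Z := by positivity
        linarith) (by
        rw [e1, prod_A, ← hu]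
        have a : (2 * (2 * K * r) + 1) ^ j ≤ ((4 * K + 1) * r) ^ j :=
          pow_le_pow_left₀ (by positivity) (by linarith) j
        have e3 : r ^ j * r ^ (d - j) = r ^ d := by rw [← pow_add]; congr 1; omega
        calc _ ≤ ((4 * K + 1) * r) ^ j * 3 ^ (d - j) * ((2 * C) ^ j * u * (4 * r) ^ (d - j)) := by
              gcongr
          _ = ((4 * K + 1) ^ j * 3 ^ (d - j) * (2 * C) ^ j * 4 ^ (d - j)) * (u * r ^ d) := by
              rw [mul_pow, mul_pow 4 r, ← e3]; ring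
          _ ≤ K1 * (om d / 2 * ((1 / 2) ^ d * om d)) * (u * r ^ d) := by gcongr
          _ = K1 * u * (r ^ d * om d / 2 * ((1 / 2) ^ d * om d)) := by ring
          _ < m * (r ^ d * om d / 2 * ((1 / 2) ^ d * om d)) := by gcongr
          _ = _ := by ring)
    refine key.trans ?_
    have hT0 : (0 : ℝ) < T := by linarith
    have f1 : d * r / W ≤ η1 := by rw [div_le_iff₀ hW0]; nlinarith
    have f2 : 8 * d ^ 4 * r ^ 2 / (K * r ^ 2) = η1 := by rw [← hKη]; field_simp
    have f3 : (m : ℝ) ≤ η1 * T := by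
      have : u ≤ Z := by nlinarith
      have : K1 * u ≤ K1 * Z := by gcongr
      have : η1 * W ≤ η1 * T := by gcongr
      nlinarith
    have f4 : 4 * m * W ^ 2 / (K * r ^ 2) ≤ η1 * T := by
      rw [div_le_iff₀ (by positivity)]
      have a : m * c ≤ 2 * r ^ 2 := by rw [hr2, ← huZ]; nlinarith
      have b : 4 * m * W ^ 2 ≤ 4 * m * (T * c) := by gcongr
      have c' : 4 * T * (m * c) ≤ 4 * T * (2 * r ^ 2) := by gcongr
      have e : η1 * T * (K * r ^ 2) = 8 * d ^ 4 * (T * r ^ 2) := by rw [← hKη]; ring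
      have f : T * r ^ 2 ≤ d ^ 4 * (T * r ^ 2) := le_mul_of_one_le_left (by positivity) hd4
      rw [e]; linarith
    have hΩ : 0 < W ^ d * om d := by positivity
    have g : T * (d * t + d * r / W + 8 * d ^ 4 * r ^ 2 / (K * r ^ 2)) + m +
        4 * m * W ^ 2 / (K * r ^ 2) ≤ 5 * η1 * T := by
      rw [htd, f2]; nlinarith
    have g2 := mul_le_mul_of_nonneg_right g hΩ.le
    have g3 := mul_le_mul_of_nonneg_right h3 (show 0 ≤ T * (W ^ d * om d) by positivity)
    nlinarith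

lemma chain_bound (hd : 1 ≤ d) : ∃ C : ℝ, 0 < C ∧ ∀ c : ℝ, 1 ≤ c →
    ∀ (W : ℝ) (T : ℕ) (X : ℕ → Finset (E d)), W = c ^ 2 ^ (d - 1) → Chain W T X →
      T ≤ C * (W ^ 2 / c) := by
  classical
  obtain ⟨C, hC, c0, H⟩ := levels (d := d) (d - 1) (by omega) (1 / 2) (by norm_num)
  have hom := om_pos d
  refine ⟨1 + (2 * |c0| ^ 2 ^ (d - 1) + 1) ^ d + 3 ^ d * (2 * C) ^ (d - 1) * 8 / om d,
    by positivity, fun c hc W T X hW hX => ?_⟩
  have hcW : c ≤ W := hW ▸ le_self_pow₀ hc (by positivity)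
  have hW0 : 0 < W := by linarith
  have hc0 : 0 < c := by linarith
  have hq : 1 ≤ W ^ 2 / c := by rw [le_div_iff₀ hc0]; nlinarith
  have hcard := pack_ball (X 0) hX.sep hW0.le (z := 0) (fun y hy => by simpa using hX.bdd y hy)
  have p1 : 0 ≤ (2 * |c0| ^ 2 ^ (d - 1) + 1) ^ d := by positivity
  have p2 : 0 ≤ 3 ^ d * (2 * C) ^ (d - 1) * 8 / om d := by positivity
  by_cases h1 : W ^ 2 ≤ T * c
  swap
  · have : (T : ℝ) ≤ W ^ 2 / c := by rw [le_div_iff₀ hc0]; linarith
    nlinarith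
  by_cases h2 : c0 ≤ c
  swap
  · have a := hX.card_layers (Finset.range T) id (fun _ _ _ _ e => e) (lay X)
      (fun _ _ => subset_rfl) (Y := X 0) (fun t _ v hv => hX.anti (Nat.zero_le t) (mem_lay.1 hv).1)
    have b : ∑ t ∈ Finset.range T, (1 : ℝ) ≤ ∑ t ∈ Finset.range T, ((lay X t).card : ℝ) := by
      refine Finset.sum_le_sum fun t ht => ?_
      obtain ⟨v, hv, hv', -⟩ := hX.top t (Finset.mem_range.1 ht) 0
      exact_mod_cast Finset.card_pos.2 ⟨v, mem_lay.2 ⟨hv, hv'⟩⟩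
    simp only [Finset.sum_const, Finset.card_range, nsmul_eq_mul, mul_one] at b
    have e : (2 * W + 1) ^ d ≤ (2 * |c0| ^ 2 ^ (d - 1) + 1) ^ d := by
      have : c ≤ |c0| := (not_le.1 h2).le.trans (le_abs_self _)
      rw [hW]; gcongr
    nlinarith
  have IH := H c h2 hc W T X hW hX h1
  set A : ℕ → ℝ := fun s => C * c ^ 2 ^ s with hA
  let Z : ℕ → Finset (E d) := fun i => (lay X i).filter fun v => Thin (d - 1) A (cell W (X i) v)
  have hcov : ∀ i ∈ Finset.range T, W ^ d * om d ≤ badM W X (d - 1) A i +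
      (Z i).card * ((∏ s ∈ Finset.range (d - 1), 2 * A s) * (4 * W) ^ (d - (d - 1))) := by
    intro i hi
    refine (hX.cover (Finset.mem_range.1 hi) (Nat.sub_le d 1) (A := A) (fun s => by positivity)
      (p := 0) hW0.le (by simp) (badS W X (d - 1) A i) (Z i)
      (fun v hv => (Finset.mem_filter.1 hv).2) fun v hv q hq _ => ?_).trans (add_le_add ?_ le_rfl)
    · by_cases a : Thin (d - 1) A (cell W (X i) v)
      · exact Or.inr (Finset.mem_filter.2 ⟨hv, a⟩)
      · exact Or.inl (mem_iUnion₂.2 ⟨v, mem_badV.2 ⟨hv, a⟩, hq⟩)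
    · exact (measureReal_mono inter_subset_left (fin_of_sub (badS_sub _ _ _))).trans
        (badS_le _ _ _)
  have hsum := Finset.sum_le_sum hcov
  rw [Finset.sum_add_distrib, Finset.sum_const, ← Finset.sum_mul, Finset.card_range,
    nsmul_eq_mul, show d - (d - 1) = 1 by omega, pow_one, prod_A] at hsum
  have hZ := hX.card_layers (Finset.range T) id (fun _ _ _ _ e => e) Z
    (fun _ _ => Finset.filter_subset _ _) (Y := X 0)
    (fun t _ v hv => hX.anti (Nat.zero_le t) (mem_lay.1 (Finset.mem_filter.1 hv).1).1)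
  have hu : ∏ s ∈ Finset.range (d - 1), c ^ 2 ^ s = W / c := by
    rw [eq_div_iff hc0.ne', prod_pow, hW]
  rw [hu] at hsum
  have h3 : (2 * W + 1) ^ d ≤ 3 ^ d * W ^ d := by
    rw [← mul_pow]; exact pow_le_pow_left₀ (by positivity) (by linarith) d
  have h4 := mul_le_mul_of_nonneg_right (hZ.trans (hcard.trans h3))
    (show 0 ≤ (2 * C) ^ (d - 1) * (W / c) * (4 * W) by positivity)
  have h5 : W ^ d * (T * om d) ≤ W ^ d * (3 ^ d * (2 * C) ^ (d - 1) * 8 * (W ^ 2 / c)) := by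
    have e : 3 ^ d * W ^ d * ((2 * C) ^ (d - 1) * (W / c) * (4 * W)) =
        W ^ d * (3 ^ d * (2 * C) ^ (d - 1) * 8 * (W ^ 2 / c)) / 2 := by ring
    linarith
  have h6 := le_of_mul_le_mul_left h5 (by positivity)
  have h7 : T ≤ 3 ^ d * (2 * C) ^ (d - 1) * 8 / om d * (W ^ 2 / c) := by
    rw [div_mul_eq_mul_div, le_div_iff₀ hom]; exact h6
  nlinarith

end Layer71
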