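import Pool.Agent.Lib.MP_71cb23_co.Defs
import Pool.Agent.Lib.MP_71cb23_co.Upper
import Pool.Agent.Lib.MP_71cb23_co.Tower

open MeasureTheory Metric Set Module Filter
open scoped RealInnerProductSpace

namespace Layer71

variable {d : ℕ}

lemma mem_peel {X : Finset (E d)} {x : E d} :
    x ∈ peel X ↔ x ∈ X ∧ x ∉ (convexHull ℝ (X : Set (E d))).extremePoints ℝ := by
  classical
  simp [peel]

lemma peel_anti (X : Finset (E d)) : Antitone fun i => peel^[i] X :=
  antitone_nat_of_succ_le fun i => by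
    rw [Function.iterate_succ_apply']; exact fun x hx => (mem_peel.1 hx).1

lemma exists_top {X : Finset (E d)} (hX : X.Nonempty) (p : E d) :
    ∃ v ∈ X, v ∉ peel X ∧ ∀ x ∈ X, ⟪x, p⟫ ≤ ⟪v, p⟫ := by
  have hc := X.finite_toSet.isCompact_convexHull ℝ
  have he := ContinuousLinearMap.toExposed.isExposed (l := innerSL ℝ p)
    (A := convexHull ℝ (X : Set (E d)))
  obtain ⟨a, ha, hm⟩ := hc.exists_isMaxOn ((Finset.coe_nonempty.2 hX).mono (subset_convexHull ℝ _))
    (innerSL ℝ p).continuous.continuousOn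
  obtain ⟨v, hv⟩ := (he.isCompact hc).extremePoints_nonempty ⟨a, ha, fun y hy => hm hy⟩
  have hv' := he.isExtreme.extremePoints_subset_extremePoints hv
  refine ⟨v, extremePoints_convexHull_subset hv', fun h => (mem_peel.1 h).2 hv', fun x hx => ?_⟩
  have := hv.1.2 x (subset_convexHull ℝ _ hx)
  simpa only [innerSL_apply_apply, real_inner_comm] using this

lemma theta_eq (hd : 1 ≤ d) : (2 / d - 1 / (d * 2 ^ (d - 1)) : ℝ) = (d : ℝ)⁻¹ * (2 - 2 / 2 ^ d) := by
  obtain ⟨k, rfl⟩ : ∃ k, d = k + 1 := ⟨d - 1, by omega⟩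
  simp only [Nat.add_sub_cancel, pow_succ]
  field_simp

lemma two_div_le (hd : 1 ≤ d) : (2 : ℝ) / 2 ^ d ≤ 1 :=
  (div_le_one (by positivity)).2 (le_self_pow₀ one_le_two (by omega))

lemma upper (hd : 1 ≤ d) (α : ℝ) : ∃ C : ℝ, ∀ X : Finset (E d), Evenly α X →
    (layer X : ℝ) ≤ C * (X.card : ℝ) ^ (2 / d - 1 / (d * 2 ^ (d - 1)) : ℝ) := by
  classical
  obtain ⟨C, hC, H⟩ := chain_bound hd
  have hom := om_pos d
  obtain ⟨β, hβ1, hβ⟩ : ∃ β : ℝ, 1 ≤ β ∧ α * om d ≤ β := ⟨_, le_max_left _ _, le_max_right _ _⟩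
  rw [theta_eq hd]
  set θ : ℝ := (d : ℝ)⁻¹ * (2 - 2 / 2 ^ d) with hθ
  have hθ0 : 0 ≤ θ := mul_nonneg (by positivity) (by linarith [two_div_le hd])
  refine ⟨C * β ^ θ + 1, fun X ⟨⟨o, ho⟩, hX⟩ => ?_⟩
  rcases Nat.eq_zero_or_pos (layer X) with h0 | h0
  · rw [h0]; push_cast; positivity
  obtain ⟨T, hT⟩ : ∃ T, layer X = T + 1 := ⟨layer X - 1, by omega⟩
  have hne : (peel^[T] X).Nonempty :=
    Finset.nonempty_iff_ne_empty.2 (Nat.find_min (peel_ends X) (by unfold layer at hT; omega))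
  have hn : (1 : ℝ) ≤ X.card := by
    exact_mod_cast Finset.card_pos.2 (hne.mono (peel_anti X (Nat.zero_le T)))
  have hβn : 1 ≤ β * X.card := by nlinarith
  set W : ℝ := (β * X.card) ^ ((d : ℝ)⁻¹) with hW
  have hW1 : 1 ≤ W := Real.one_le_rpow hβn (by positivity)
  have hWd : W ^ d = β * X.card := Real.rpow_inv_natCast_pow (by linarith) (by omega)
  have hsep : ∀ x ∈ X, ∀ y ∈ X, x ≠ y → 1 ≤ W * dist x y := by
    intro x hx y hy hxy
    have hpos : 0 < dist x y := dist_pos.2 hxy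
    have a := hX x (dist x y) hpos
    have c : (1 : ℤ) < ⌈α * X.card * volume.real (closedBall x (dist x y))⌉ := by
      refine lt_of_lt_of_le ?_ a
      rw [Nat.one_lt_cast]
      exact Finset.one_lt_card.2 ⟨x, by simp [hx], y, by simp [hy, dist_comm], hxy⟩
    rw [Int.lt_ceil, vol_cb x hpos.le] at c
    by_contra e
    have f : (W * dist x y) ^ d ≤ 1 := pow_le_one₀ (by positivity) (not_le.1 e).le
    rw [mul_pow, hWd] at f
    have g := mul_le_mul_of_nonneg_right hβ (show 0 ≤ X.card * dist x y ^ d by positivity)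
    push_cast at c
    linarith
  let φ : E d → E d := fun x => W • (x - o)
  have hφ : ∀ x y, dist (φ x) (φ y) = W * dist x y := fun x y => by
    simp only [φ]; rw [dist_smul₀, dist_sub_right, Real.norm_of_nonneg (by linarith)]
  have hch : Chain W T fun i => (peel^[i] X).image φ := by
    refine ⟨fun i j h => Finset.image_subset_image (peel_anti X h), hne.image _, ?_, ?_, ?_⟩
    · intro x hx y hy hxy
      obtain ⟨a, ha, rfl⟩ := Finset.mem_image.1 hx
      obtain ⟨b, hb, rfl⟩ := Finset.mem_image.1 hy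
      rw [hφ]; exact hsep a ha b hb fun e => hxy (by rw [e])
    · intro x hx
      obtain ⟨a, ha, rfl⟩ := Finset.mem_image.1 hx
      have := ho a ha
      rw [mem_closedBall, dist_eq_norm] at this
      simp only [φ]; rw [norm_smul, Real.norm_of_nonneg (by linarith)]
      nlinarith
    · intro i hi p
      obtain ⟨v, hv, hv', hm⟩ := exists_top (hne.mono (peel_anti X hi.le)) p
      refine ⟨φ v, Finset.mem_image_of_mem _ hv, fun h => ?_, fun x hx => ?_⟩
      · obtain ⟨a, ha, e⟩ := Finset.mem_image.1 h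
        have : W * dist a v = 0 := by rw [← hφ, e, dist_self]
        rw [Function.iterate_succ_apply', dist_eq_zero.1
          ((mul_eq_zero.1 this).resolve_left (by linarith))] at ha
        exact hv' ha
      · obtain ⟨a, ha, rfl⟩ := Finset.mem_image.1 hx
        simp only [φ, real_inner_smul_left, inner_sub_left]
        have := hm a ha
        nlinarith
  have hb := H (W ^ (((2 ^ (d - 1) : ℕ) : ℝ)⁻¹)) (Real.one_le_rpow hW1 (by positivity)) W T _
    (Real.rpow_inv_natCast_pow (by linarith) (by positivity)).symm hch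
  have e : W ^ 2 / W ^ (((2 ^ (d - 1) : ℕ) : ℝ)⁻¹) = β ^ θ * (X.card : ℝ) ^ θ := by
    rw [← Real.mul_rpow (by linarith) (by linarith), hθ, Real.rpow_mul (by linarith), ← hW,
      Real.rpow_sub (by linarith), Real.rpow_two]
    congr 2
    obtain ⟨k, rfl⟩ : ∃ k, d = k + 1 := ⟨d - 1, by omega⟩
    simp only [Nat.add_sub_cancel, pow_succ]
    push_cast; field_simp
  have f : 1 ≤ (X.card : ℝ) ^ θ := Real.one_le_rpow hn hθ0
  rw [e] at hb
  rw [hT]
  push_cast
  linarith

lemma le_layer {X : Finset (E d)} {T : ℕ} (S : ℕ → Set (E d)) (h1 : ∀ t < T, S t ⊆ X)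
    (h2 : ∀ t, t + 1 < T → ∀ x ∈ S (t + 1), x ∉ S t ∧ x ∈ convexHull ℝ (S t))
    (h3 : ∀ t < T, (S t).Nonempty) : T ≤ layer X := by
  have key : ∀ i, ∀ t < T, i ≤ t → S t ⊆ (peel^[i] X : Finset (E d)) := by
    intro i
    induction i with
    | zero => exact fun t ht _ => h1 t ht
    | succ i ih =>
      intro t ht hi x hx
      obtain ⟨s, rfl⟩ : ∃ s, t = s + 1 := ⟨t - 1, by omega⟩
      rw [Function.iterate_succ_apply', Finset.mem_coe, mem_peel,
        (convex_convexHull ℝ _).mem_extremePoints_iff_mem_sdiff_convexHull_sdiff]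
      refine ⟨ih _ ht (by omega) hx, fun h => h.2 (convexHull_mono ?_ (h2 s ht x hx).2)⟩
      intro y hy
      exact ⟨subset_convexHull ℝ _ (ih s (by omega) (by omega) hy),
        fun e => (h2 s ht x hx).1 (mem_singleton_iff.1 e ▸ hy)⟩
  by_contra h
  push Not at h
  obtain ⟨x, hx⟩ := h3 _ h
  have := key _ _ h le_rfl hx
  classical
  rw [show peel^[layer X] X = ∅ from Nat.find_spec (peel_ends X)] at this
  simp at this

lemma lower (hd : 1 ≤ d) : ∃ α > (1 : ℝ), ∃ c > (0 : ℝ), ∀ N : ℕ, ∃ X : Finset (E d),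
    Evenly α X ∧ N ≤ X.card ∧
      c * (X.card : ℝ) ^ (2 / d - 1 / (d * 2 ^ (d - 1)) : ℝ) ≤ layer X := by
  classical
  obtain ⟨κ, hκ, H⟩ := towers d
  have hom := om_pos d
  obtain ⟨α, hα1, hα⟩ : ∃ α : ℝ, 1 < α ∧ 4 ^ d ≤ α * om d :=
    ⟨max 2 (4 ^ d / om d), lt_of_lt_of_le one_lt_two (le_max_left _ _),
      (div_le_iff₀ hom).1 (le_max_right _ _)⟩
  refine ⟨α, hα1, κ / 9, by positivity, fun N => ?_⟩
  obtain ⟨W, hW1, hWN⟩ : ∃ W : ℝ, 1 ≤ W ∧ N ≤ W := ⟨_, le_max_left _ _, le_max_right _ _⟩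
  have hW0 : 0 < W := by linarith
  obtain ⟨T, hT, HT⟩ := H W hW1
  obtain ⟨S, hS⟩ := HT (E d) (by simp)
  obtain ⟨A, hA0, hA1, hA2, hA3⟩ := exists_net (isCompact_closedBall (0 : E d) W) one_pos
    ((Finset.range T).biUnion S) (by
      intro x hx
      obtain ⟨t, ht, hx⟩ := Finset.mem_biUnion.1 hx
      exact mem_closedBall_zero_iff.2 (hS.bdd t (Finset.mem_range.1 ht) x hx)) (by
      intro x hx y hy hxy
      obtain ⟨t, ht, hx⟩ := Finset.mem_biUnion.1 hx
      obtain ⟨s, hs, hy⟩ := Finset.mem_biUnion.1 hy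
      exact hS.sep t (Finset.mem_range.1 ht) s (Finset.mem_range.1 hs) x hx y hy (Or.inl hxy))
  have hlo : W ^ d ≤ A.card := by
    have a : volume.real (closedBall (0 : E d) W) ≤ volume.real (⋃ a ∈ A, ball a 1) :=
      measureReal_mono (fun x hx => by
        obtain ⟨a, ha, h⟩ := hA3 x hx
        exact mem_iUnion₂.2 ⟨a, ha, h⟩)
        (measure_biUnion_lt_top A.finite_toSet fun _ _ => measure_ball_lt_top).ne
    have b := a.trans (measureReal_biUnion_finset_le _ _)
    rw [vol_cb _ hW0.le, Finset.sum_congr rfl fun a _ => vol_b a one_pos] at b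
    simp only [one_pow, one_mul, Finset.sum_const, nsmul_eq_mul] at b
    exact le_of_mul_le_mul_right b hom
  have hhi : (A.card : ℝ) ≤ (3 * W) ^ d :=
    (pack_ball A hA2 hW0.le (z := 0) hA1).trans (pow_le_pow_left₀ (by positivity) (by linarith) d)
  let φ : E d →ₗ[ℝ] E d := W⁻¹ • LinearMap.id
  have hφ : ∀ x, W • φ x = x := fun x => by simp [φ, smul_smul, hW0.ne']
  have hinj : Function.Injective φ := fun x y e => by rw [← hφ x, e, hφ]
  have hd' : ∀ x z, dist x (W • z) = W * dist (φ x) z := fun x z => by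
    conv_lhs => rw [← hφ x]
    rw [dist_smul₀, Real.norm_of_nonneg hW0.le]
  have hcard : (A.image φ).card = A.card := Finset.card_image_of_injective _ hinj
  have hWp : W ≤ W ^ d := le_self_pow₀ hW1 (by omega)
  refine ⟨A.image φ, ⟨⟨0, fun x hx => ?_⟩, fun z r hr => ?_⟩, ?_, ?_⟩
  · obtain ⟨a, ha, rfl⟩ := Finset.mem_image.1 hx
    have := hA1 a ha
    rw [mem_closedBall, ← smul_zero W, hd'] at this
    rw [mem_closedBall]; nlinarith
  · rw [Finset.filter_image, Finset.card_image_of_injective _ hinj, hcard, vol_cb z hr.le]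
    set B := A.filter fun a => φ a ∈ closedBall z r with hB
    have hB1 : ∀ y ∈ B, dist y (W • z) ≤ W * r := fun y hy => by
      rw [hd']; exact mul_le_mul_of_nonneg_left (Finset.mem_filter.1 hy).2 hW0.le
    have hB2 : ∀ x ∈ B, ∀ y ∈ B, x ≠ y → 1 ≤ dist x y := fun x hx y hy =>
      hA2 x (Finset.mem_filter.1 hx).1 y (Finset.mem_filter.1 hy).1
    by_cases h : 2 * (W * r) < 1
    · have a : B.card ≤ 1 := Finset.card_le_one.2 fun x hx y hy => by
        by_contra e
        linarith [hB2 x hx y hy e, dist_triangle_right x y (W • z), hB1 x hx, hB1 y hy]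
      have b : 0 < ⌈α * A.card * (r ^ d * om d)⌉ := Int.ceil_pos.2
        (mul_pos (mul_pos (by linarith) (by linarith)) (by positivity))
      omega
    · have a := pack_ball B hB2 (by positivity) hB1
      have b : (2 * (W * r) + 1) ^ d ≤ (4 * W * r) ^ d :=
        pow_le_pow_left₀ (by positivity) (by linarith) d
      rw [mul_pow, mul_pow] at b
      have c : 4 ^ d * W ^ d * r ^ d ≤ α * om d * A.card * r ^ d := by gcongr
      have e := Int.le_ceil (α * A.card * (r ^ d * om d))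
      have : ((B.card : ℤ) : ℝ) ≤ ⌈α * A.card * (r ^ d * om d)⌉ := by push_cast; linarith
      exact_mod_cast this
  · rw [hcard]; exact_mod_cast hWN.trans (hWp.trans hlo)
  · have a : T ≤ layer (A.image φ) := by
      refine le_layer (fun t => φ '' S t) (fun t ht => ?_) (fun t ht => ?_) (fun t ht => ?_)
      · rintro _ ⟨x, hx, rfl⟩
        exact Finset.mem_image_of_mem _
          (hA0 (Finset.mem_biUnion.2 ⟨t, Finset.mem_range.2 ht, hx⟩))
      · rintro _ ⟨x, hx, rfl⟩
        refine ⟨?_, ?_⟩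
        · rintro ⟨y, hy, e⟩
          have := hS.sep _ ht t (by omega) x hx y hy (Or.inr (by omega))
          rw [hinj e, dist_self] at this; linarith
        · rw [← LinearMap.image_convexHull]; exact ⟨x, hS.nest t ht x hx, rfl⟩
      · exact (convexHull_nonempty_iff.1 ⟨_, hS.zero t ht⟩).image _
    have h2 := two_div_le hd
    have h3 : (0 : ℝ) < 2 / 2 ^ d := by positivity
    have b : (A.card : ℝ) ^ ((d : ℝ)⁻¹ * (2 - 2 / 2 ^ d)) ≤ 9 * W ^ (2 - 2 / 2 ^ d : ℝ) := by
      refine (Real.rpow_le_rpow (by positivity) hhi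
        (mul_nonneg (by positivity) (by linarith))).trans ?_
      rw [Real.rpow_mul (by positivity), Real.pow_rpow_inv_natCast (by positivity) (by omega),
        Real.mul_rpow (by norm_num) hW0.le]
      refine mul_le_mul_of_nonneg_right ?_ (by positivity)
      refine (Real.rpow_le_rpow_of_exponent_le (by norm_num) (show _ ≤ (2 : ℝ) by linarith)).trans ?_
      norm_num
    rw [hcard, theta_eq hd]
    have a' : (T : ℝ) ≤ layer (A.image φ) := by exact_mod_cast a
    nlinarith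

lemma not_sharp (hd : 3 ≤ d) (α : ℝ) : ¬ ∃ c > (0 : ℝ), ∃ Y : ℕ → Finset (E d),
    (∀ m, Evenly α (Y m)) ∧ Tendsto (fun m => (Y m).card) atTop atTop ∧
      ∀ m, c * ((Y m).card : ℝ) ^ ((d + 1) / (2 * d) : ℝ) ≤ layer (Y m) := by
  rintro ⟨c, hc, Y, h1, h2, h3⟩
  obtain ⟨C, hC⟩ := upper (show 1 ≤ d by omega) α
  rw [theta_eq (by omega)] at hC
  have hd' : (3 : ℝ) ≤ d := by exact_mod_cast hd
  set θ : ℝ := (d : ℝ)⁻¹ * (2 - 2 / 2 ^ d) with hθ
  have hlt : 0 < ((d + 1) / (2 * d) : ℝ) - θ := by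
    have a : (0 : ℝ) < 2 / 2 ^ d := by positivity
    have : ((d + 1) / (2 * d) : ℝ) - θ = (d : ℝ)⁻¹ * ((d - 3) / 2 + 2 / 2 ^ d) := by
      rw [hθ]; field_simp; ring
    rw [this]
    exact mul_pos (by positivity) (by linarith)
  have ht := (tendsto_rpow_atTop hlt).comp (tendsto_natCast_atTop_atTop.comp h2)
  obtain ⟨m, hm, hm'⟩ := ((ht.eventually_gt_atTop (C / c)).and (h2.eventually_gt_atTop 0)).exists
  have hp : (0 : ℝ) < (Y m).card := by exact_mod_cast hm'
  simp only [Function.comp] at hm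
  rw [Real.rpow_sub hp, div_lt_div_iff₀ hc (Real.rpow_pos_of_pos hp _)] at hm
  linarith [h3 m, hC _ (h1 m)]

end Layer71
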