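import Pool.Agent.Lib.MP_71cb23_co.Geo

open MeasureTheory Metric Set Module
open scoped RealInnerProductSpace

namespace Layer71

variable {d : ℕ}

lemma meas_pair {S : Set (E d)} (hS : MeasurableSet S) (r : ℝ) :
    MeasurableSet {x : E d × E d | x.2 ∈ S ∧ dist x.2 x.1 ≤ r} :=
  (hS.preimage measurable_snd).inter
    (isClosed_le (continuous_snd.dist continuous_fst) continuous_const).measurableSet

lemma meas_slice {S : Set (E d)} (hS : MeasurableSet S) (r : ℝ) :
    Measurable fun p : E d => volume (S ∩ closedBall p r) :=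
  measurable_measure_prodMk_left (meas_pair hS r)

lemma fub {S : Set (E d)} (hS : MeasurableSet S) (r : ℝ) :
    ∫⁻ p : E d, volume (S ∩ closedBall p r) = volume S * volume (closedBall (0 : E d) r) := by
  have h1 := Measure.prod_apply (μ := (volume : Measure (E d))) (ν := (volume : Measure (E d)))
    (meas_pair hS r)
  have h2 := Measure.prod_apply_symm (μ := (volume : Measure (E d)))
    (ν := (volume : Measure (E d))) (meas_pair hS r)
  have h3 : ∀ q : E d, volume ((fun x => (x, q)) ⁻¹' {x : E d × E d | x.2 ∈ S ∧ dist x.2 x.1 ≤ r})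
      = S.indicator (fun _ => volume (closedBall (0 : E d) r)) q := by
    intro q
    by_cases hq : q ∈ S
    · rw [indicator_of_mem hq, ← Measure.addHaar_closedBall_center volume q r]
      congr 1; ext x; simp [hq, dist_comm]
    · rw [indicator_of_notMem hq]
      convert measure_empty (μ := (volume : Measure (E d))) using 2
      ext x; simp [hq]
  simp_rw [h3] at h2
  rw [lintegral_indicator_const hS, mul_comm] at h2
  rw [← h2, h1]; rfl

lemma markov_ball {ι : Type*} (I : Finset ι) (S : ι → Set (E d))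
    (hS : ∀ t ∈ I, MeasurableSet (S t)) (hf : ∀ t ∈ I, volume (S t) ≠ ⊤) {r θ : ℝ} (hr : 0 ≤ r)
    (hθ : 0 < θ) (U : Set (E d)) :
    volume.real (U ∩ {p | θ ≤ ∑ t ∈ I, volume.real (S t ∩ closedBall p r)}) ≤
      (∑ t ∈ I, volume.real (S t)) * (r ^ d * om d) / θ := by
  have hm : Measurable fun p : E d => ∑ t ∈ I, volume (S t ∩ closedBall p r) :=
    Finset.measurable_sum _ fun t ht => meas_slice (hS t ht) r
  have h1 := mul_meas_ge_le_lintegral (μ := volume) hm (ENNReal.ofReal θ)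
  rw [lintegral_finsetSum _ (fun t ht => meas_slice (hS t ht) r),
    Finset.sum_congr rfl (fun t ht => fub (hS t ht) r), ← Finset.sum_mul] at h1
  have hom := om_pos d
  have hsum : 0 ≤ ∑ t ∈ I, volume.real (S t) := Finset.sum_nonneg fun _ _ => measureReal_nonneg
  have h2 : (∑ t ∈ I, volume (S t)) * volume (closedBall (0 : E d) r) =
      ENNReal.ofReal ((∑ t ∈ I, volume.real (S t)) * (r ^ d * om d)) := by
    rw [ENNReal.ofReal_mul hsum, ← vol_cb (0 : E d) hr,
      ENNReal.ofReal_sum_of_nonneg (fun _ _ => measureReal_nonneg)]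
    congr 1
    · exact Finset.sum_congr rfl fun t ht => (ofReal_measureReal (hf t ht)).symm
    · exact (ofReal_measureReal measure_closedBall_lt_top.ne).symm
  rw [h2] at h1
  refine ENNReal.toReal_le_of_le_ofReal (by positivity) ?_
  rw [ENNReal.ofReal_div_of_pos hθ,
    ENNReal.le_div_iff_mul_le (Or.inl (by simpa using hθ)) (Or.inl ENNReal.ofReal_ne_top), mul_comm]
  refine le_trans (mul_le_mul_right (measure_mono ?_) _) h1
  rintro p ⟨-, hp⟩
  simp only [mem_ofPred_eq] at hp ⊢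
  refine (ENNReal.ofReal_le_ofReal hp).trans (le_of_eq ?_)
  rw [ENNReal.ofReal_sum_of_nonneg (fun _ _ => measureReal_nonneg)]
  exact Finset.sum_congr rfl fun t _ => ofReal_measureReal (fin_of_sub inter_subset_right)

lemma annulus {W ρ : ℝ} (hW : ρ ≤ W) (hW0 : 0 < W) {S : Set (E d)}
    (hS : volume.real S = W ^ d * om d) (hf : volume S ≠ ⊤)
    (hsub : closedBall (0 : E d) (W - ρ) ⊆ S) :
    volume.real (S \ closedBall 0 (W - ρ)) ≤ d * ρ / W * (W ^ d * om d) := by
  rw [measureReal_sdiff hsub measurableSet_closedBall hf, hS, vol_cb _ (by linarith)]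
  have h1 : 1 + (d : ℝ) * (-(ρ / W)) ≤ (1 + -(ρ / W)) ^ d :=
    one_add_mul_le_pow (by have : ρ / W ≤ 1 := (div_le_one hW0).2 hW; linarith) d
  have h2 : (W - ρ) ^ d = (1 + -(ρ / W)) ^ d * W ^ d := by
    rw [← mul_pow]; congr 1; field_simp; ring
  have h3 : 0 < W ^ d * om d := by have := om_pos d; positivity
  rw [h2, mul_assoc, mul_div_assoc]
  nlinarith

lemma markov_U {W D : ℝ} (hD : 0 < D) {f : E d → ℝ} (hf : Continuous f)
    (h0 : ∀ p, 0 ≤ f p) :
    volume.real (closedBall (0 : E d) W ∩ {p | D ≤ f p}) ≤ (∫ p in closedBall (0 : E d) W, f p) / D := by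
  have hi : IntegrableOn f (closedBall (0 : E d) W) :=
    hf.continuousOn.integrableOn_compact (isCompact_closedBall _ _)
  have := mul_meas_ge_le_integral_of_nonneg (μ := volume.restrict (closedBall (0 : E d) W))
    (Filter.Eventually.of_forall h0) hi D
  rw [measureReal_restrict_apply (isClosed_le continuous_const hf).measurableSet, inter_comm] at this
  rw [le_div_iff₀ hD, mul_comm]; exact this

lemma second_diff {W D : ℝ} (hW : 0 < W) (hD : 0 < D) {g : E d → ℝ} (hg : Continuous g)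
    {z : E d} (hz : ‖z‖ ≤ W) (hL : ∀ p, |g (p + z) - g p| ≤ W * ‖z‖)
    (h0 : ∀ p, 0 ≤ g (p + z) + g (p - z) - 2 * g p) :
    volume.real (closedBall (0 : E d) W ∩ {p | D ≤ g (p + z) + g (p - z) - 2 * g p}) ≤
      2 * d * ‖z‖ ^ 2 * (W ^ d * om d) / D := by
  refine (markov_U hD (by fun_prop) h0).trans (div_le_div_of_nonneg_right ?_ hD.le)
  set h : E d → ℝ := fun p => g (p + z) - g p with hh
  have hc : Continuous h := by fun_prop
  have hi : ∀ (x : E d) (r : ℝ), IntegrableOn h (closedBall x r) := fun x r =>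
    hc.continuousOn.integrableOn_compact (isCompact_closedBall _ _)
  have hi2 : IntegrableOn (fun p => h (p - z)) (closedBall (0 : E d) W) :=
    (hc.comp (by fun_prop)).continuousOn.integrableOn_compact (isCompact_closedBall _ _)
  have e1 : ∀ p, g (p + z) + g (p - z) - 2 * g p = h p - h (p - z) := by
    intro p; simp only [hh, sub_add_cancel]; ring
  simp_rw [e1]
  rw [integral_sub (hi 0 W) hi2]
  have e2 : ∫ p in closedBall (0 : E d) W, h (p - z) = ∫ p in closedBall (-z) W, h p := by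
    have := (measurePreserving_sub_right (volume : Measure (E d)) z).setIntegral_preimage_emb
      (Homeomorph.subRight z).measurableEmbedding h (closedBall (-z) W)
    rw [← this]; congr 2; ext x; simp [dist_eq_norm]
  rw [e2]
  have key : ∀ x : E d, ‖x‖ ≤ ‖z‖ → |(∫ p in closedBall x W, h p) -
      ∫ p in closedBall (0 : E d) (W - ‖z‖), h p| ≤ d * ‖z‖ ^ 2 * (W ^ d * om d) := by
    intro x hx
    have hsub : closedBall (0 : E d) (W - ‖z‖) ⊆ closedBall x W :=
      closedBall_subset_closedBall' (by rw [dist_zero_left]; linarith)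
    rw [← setIntegral_sdiff measurableSet_closedBall (hi x W) hsub]
    have h1 := norm_setIntegral_le_of_norm_le_const (μ := volume) (f := h)
      (s := closedBall x W \ closedBall 0 (W - ‖z‖)) (C := W * ‖z‖)
      (fin_of_sub sdiff_subset).lt_top (fun p _ => hL p)
    have h2 := annulus hz hW (vol_cb x hW.le) measure_closedBall_lt_top.ne hsub
    refine h1.trans ((mul_le_mul_of_nonneg_left h2 (by positivity)).trans (le_of_eq ?_))
    field_simp
  have k1 := abs_le.1 (key 0 (by simp))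
  have k2 := abs_le.1 (key (-z) (by simp))
  linarith [k1.2, k2.1]

/-- support function -/
noncomputable def supp (Y : Finset (E d)) (p : E d) : ℝ := sSup ((fun x => ⟪x, p⟫) '' (Y : Set (E d)))

lemma le_supp {Y : Finset (E d)} {x : E d} (hx : x ∈ Y) (p : E d) : ⟪x, p⟫ ≤ supp Y p :=
  le_csSup (Y.finite_toSet.image _).bddAbove ⟨x, hx, rfl⟩

lemma supp_mem {Y : Finset (E d)} (hY : Y.Nonempty) (p : E d) : ∃ x ∈ Y, ⟪x, p⟫ = supp Y p :=
  Set.Nonempty.csSup_mem ((Finset.coe_nonempty.2 hY).image _) (Y.finite_toSet.image _)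

lemma supp_eq {Y : Finset (E d)} {v p : E d} (hv : v ∈ Y) (h : ∀ x ∈ Y, ⟪x, p⟫ ≤ ⟪v, p⟫) :
    supp Y p = ⟪v, p⟫ := by
  obtain ⟨x, hx, e⟩ := supp_mem ⟨v, hv⟩ p
  exact le_antisymm (e ▸ h x hx) (le_supp hv p)

lemma supp_mono {Y Z : Finset (E d)} (hY : Y.Nonempty) (h : Y ⊆ Z) (p : E d) :
    supp Y p ≤ supp Z p := by
  obtain ⟨x, hx, e⟩ := supp_mem hY p
  exact e ▸ le_supp (h hx) p

lemma supp_lip {Y : Finset (E d)} (hY : Y.Nonempty) {W : ℝ} (hW : ∀ x ∈ Y, ‖x‖ ≤ W) (p z : E d) :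
    |supp Y (p + z) - supp Y p| ≤ W * ‖z‖ := by
  have hb : ∀ x ∈ Y, |⟪x, z⟫| ≤ W * ‖z‖ := fun x hx =>
    (abs_real_inner_le_norm _ _).trans (mul_le_mul_of_nonneg_right (hW x hx) (norm_nonneg _))
  obtain ⟨x, hx, e⟩ := supp_mem hY (p + z)
  obtain ⟨y, hy, e'⟩ := supp_mem hY p
  have h1 := le_supp hx p
  have h2 := le_supp hy (p + z)
  rw [inner_add_right] at e h2
  have := abs_le.1 (hb x hx)
  have := abs_le.1 (hb y hy)
  rw [abs_le]; constructor <;> linarith

lemma supp_cont {Y : Finset (E d)} (hY : Y.Nonempty) {W : ℝ} (hW : ∀ x ∈ Y, ‖x‖ ≤ W) :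
    Continuous (supp Y) := by
  have hW0 : 0 ≤ W := by obtain ⟨x, hx⟩ := hY; exact (norm_nonneg x).trans (hW x hx)
  refine (LipschitzWith.of_dist_le_mul (K := ⟨W, hW0⟩) fun p q => ?_).continuous
  have := supp_lip hY hW q (p - q)
  rw [add_sub_cancel] at this
  rw [Real.dist_eq, dist_eq_norm]; exact this

lemma supp_conv {Y : Finset (E d)} (hY : Y.Nonempty) (p z : E d) :
    0 ≤ supp Y (p + z) + supp Y (p - z) - 2 * supp Y p := by
  obtain ⟨y, hy, e⟩ := supp_mem hY p
  have h1 := le_supp hy (p + z)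
  have h2 := le_supp hy (p - z)
  rw [inner_add_right] at h1
  rw [inner_sub_right] at h2
  linarith

lemma supp_abs {Y : Finset (E d)} (hY : Y.Nonempty) {W : ℝ} (hW : ∀ x ∈ Y, ‖x‖ ≤ W) {p : E d}
    (hp : ‖p‖ ≤ W) : |supp Y p| ≤ W ^ 2 := by
  obtain ⟨y, hy, e⟩ := supp_mem hY p
  rw [← e, sq]
  exact (abs_real_inner_le_norm _ _).trans
    (mul_le_mul (hW y hy) hp (norm_nonneg _) ((norm_nonneg _).trans hp))

/-- the directions (of norm at most `W`) in which `v` is maximal among `Y` -/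
def cell (W : ℝ) (Y : Finset (E d)) (v : E d) : Set (E d) :=
  closedBall 0 W ∩ ⋂ x ∈ Y, {p | ⟪x, p⟫ ≤ ⟪v, p⟫}

lemma mem_cell {W : ℝ} {Y : Finset (E d)} {v p : E d} :
    p ∈ cell W Y v ↔ ‖p‖ ≤ W ∧ ∀ x ∈ Y, ⟪x, p⟫ ≤ ⟪v, p⟫ := by
  simp [cell]

lemma cell_compact (W : ℝ) (Y : Finset (E d)) (v : E d) : IsCompact (cell W Y v) :=
  (isCompact_closedBall _ _).inter_right
    (isClosed_biInter fun _ _ => isClosed_le (by fun_prop) (by fun_prop))

lemma cell_convex (W : ℝ) (Y : Finset (E d)) (v : E d) : Convex ℝ (cell W Y v) := by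
  refine (convex_closedBall _ _).inter (convex_iInter₂ fun x _ => ?_)
  intro p hp q hq a b ha hb _
  simp only [mem_ofPred_eq, inner_add_right, inner_smul_right] at hp hq ⊢
  nlinarith [mul_le_mul_of_nonneg_left hp ha, mul_le_mul_of_nonneg_left hq hb]

lemma cell_sub (W : ℝ) (Y : Finset (E d)) (v : E d) : cell W Y v ⊆ closedBall 0 W :=
  inter_subset_left

lemma cell_disj (W : ℝ) {Y : Finset (E d)} {v w : E d} (hv : v ∈ Y) (hw : w ∈ Y) (h : v ≠ w) :
    volume (cell W Y v ∩ cell W Y w) = 0 := by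
  have hne : LinearMap.ker (innerSL ℝ (v - w)).toLinearMap ≠ ⊤ := by
    intro ht
    have : v - w ∈ LinearMap.ker (innerSL ℝ (v - w)).toLinearMap := ht ▸ Submodule.mem_top
    simp only [LinearMap.mem_ker, ContinuousLinearMap.coe_coe, innerSL_apply_apply,
      inner_self_eq_zero] at this
    exact h (sub_eq_zero.1 this)
  refine measure_mono_null ?_ (Measure.addHaar_submodule volume _ hne)
  rintro p ⟨h1, h2⟩
  have a := (mem_cell.1 h1).2 w hw
  have b := (mem_cell.1 h2).2 v hv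
  simp only [SetLike.mem_coe, LinearMap.mem_ker, ContinuousLinearMap.coe_coe, innerSL_apply_apply,
    inner_sub_left]
  linarith

lemma sum_le_of_cells (W : ℝ) {Y V : Finset (E d)} (hV : V ⊆ Y) (Q : E d → Set (E d))
    (hQ : ∀ v ∈ V, Q v ⊆ cell W Y v) (hm : ∀ v ∈ V, MeasurableSet (Q v)) {S : Set (E d)}
    (hS : ∀ v ∈ V, Q v ⊆ S) (hf : volume S ≠ ⊤) :
    ∑ v ∈ V, volume.real (Q v) ≤ volume.real S := by
  rw [← measureReal_biUnion_finset₀ (fun v hv w hw hvw => ?_)
    (fun v hv => (hm v hv).nullMeasurableSet)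
    (fun v hv => fin_of_sub ((hQ v hv).trans (cell_sub _ _ _)))]
  · exact measureReal_mono (iUnion₂_subset hS) hf
  · exact measure_mono_null (inter_subset_inter (hQ v hv) (hQ w hw))
      (cell_disj W (hV hv) (hV hw) hvw)

end Layer71
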