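import Pool.Agent.Lib.MP_71cb23_co.Thin

open MeasureTheory Metric Set Module
open scoped RealInnerProductSpace

namespace Layer71

variable {d : ℕ}

/-- abstract peeling chain of a `1`-separated set in the ball of radius `W` -/
structure Chain (W : ℝ) (T : ℕ) (X : ℕ → Finset (E d)) : Prop where
  anti : Antitone X
  ne : (X T).Nonempty
  sep : ∀ x ∈ X 0, ∀ y ∈ X 0, x ≠ y → 1 ≤ dist x y
  bdd : ∀ x ∈ X 0, ‖x‖ ≤ W
  top : ∀ i < T, ∀ p : E d, ∃ v ∈ X i, v ∉ X (i + 1) ∧ ∀ x ∈ X i, ⟪x, p⟫ ≤ ⟪v, p⟫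

open Classical in
noncomputable def lay (X : ℕ → Finset (E d)) (i : ℕ) : Finset (E d) := X i \ X (i + 1)

open Classical in
noncomputable def badV (W : ℝ) (X : ℕ → Finset (E d)) (j : ℕ) (A : ℕ → ℝ) (i : ℕ) : Finset (E d) :=
  (lay X i).filter fun v => ¬ Thin j A (cell W (X i) v)

def badS (W : ℝ) (X : ℕ → Finset (E d)) (j : ℕ) (A : ℕ → ℝ) (i : ℕ) : Set (E d) :=
  ⋃ v ∈ badV W X j A i, cell W (X i) v

noncomputable def badM (W : ℝ) (X : ℕ → Finset (E d)) (j : ℕ) (A : ℕ → ℝ) (i : ℕ) : ℝ :=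
  ∑ v ∈ badV W X j A i, volume.real (cell W (X i) v)

def decS (W D : ℝ) (X : ℕ → Finset (E d)) (i m : ℕ) : Set (E d) :=
  closedBall 0 W ∩ {p | D ≤ supp (X i) p - supp (X (i + m)) p}

variable {W : ℝ} {T : ℕ} {X : ℕ → Finset (E d)}

lemma mem_lay {i : ℕ} {v : E d} : v ∈ lay X i ↔ v ∈ X i ∧ v ∉ X (i + 1) := by
  classical
  simp [lay]

lemma mem_badV {j i : ℕ} {A : ℕ → ℝ} {v : E d} :
    v ∈ badV W X j A i ↔ v ∈ lay X i ∧ ¬ Thin j A (cell W (X i) v) := by
  classical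
  simp [badV]

lemma Chain.nonempty (h : Chain W T X) {i : ℕ} (hi : i ≤ T) : (X i).Nonempty :=
  h.ne.mono (h.anti hi)

lemma Chain.bdd' (h : Chain W T X) (i : ℕ) : ∀ x ∈ X i, ‖x‖ ≤ W :=
  fun x hx => h.bdd x (h.anti (Nat.zero_le i) hx)

lemma Chain.cont (h : Chain W T X) {i : ℕ} (hi : i ≤ T) : Continuous (supp (X i)) :=
  supp_cont (h.nonempty hi) (h.bdd' i)

lemma Chain.card_layers (h : Chain W T X) (I : Finset ℕ) (f : ℕ → ℕ) (hf : Set.InjOn f I)
    (Z : ℕ → Finset (E d)) (hZ : ∀ t ∈ I, Z t ⊆ lay X (f t)) {Y : Finset (E d)}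
    (hY : ∀ t ∈ I, Z t ⊆ Y) : ∑ t ∈ I, ((Z t).card : ℝ) ≤ Y.card := by
  classical
  rw [← Nat.cast_sum, ← Finset.card_biUnion]
  · exact_mod_cast Finset.card_le_card (Finset.biUnion_subset.2 hY)
  · intro s hs t ht hst
    refine Finset.disjoint_left.2 fun v h1 h2 => ?_
    have a := mem_lay.1 (hZ s hs h1)
    have b := mem_lay.1 (hZ t ht h2)
    rcases lt_or_gt_of_ne (fun e => hst (hf hs ht e)) with l | l
    · exact a.2 (h.anti l b.1)
    · exact b.2 (h.anti l a.1)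

/-- covering a ball of directions at time `i` -/
lemma Chain.cover (h : Chain W T X) {i j : ℕ} (hi : i < T) (hj : j ≤ d) {A : ℕ → ℝ}
    (hA : ∀ s, 0 ≤ A s) {p : E d} {r : ℝ} (hr : 0 ≤ r) (hp : ‖p‖ ≤ W - r) (S : Set (E d))
    (Z : Finset (E d)) (hZ : ∀ v ∈ Z, Thin j A (cell W (X i) v))
    (hS : ∀ v ∈ lay X i, ∀ q ∈ cell W (X i) v, dist q p ≤ r → q ∈ S ∨ v ∈ Z) :
    r ^ d * om d ≤ volume.real (S ∩ closedBall p r) +
      Z.card * ((∏ s ∈ Finset.range j, 2 * A s) * (4 * r) ^ (d - j)) := by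
  rw [← vol_cb p hr]
  have hsub : closedBall p r ⊆ (S ∩ closedBall p r) ∪ ⋃ v ∈ Z, (cell W (X i) v ∩ closedBall p r) := by
    intro q hq
    obtain ⟨v, hv, hv', hm⟩ := h.top i hi q
    have hq' : dist q p ≤ r := hq
    have hc : q ∈ cell W (X i) v := mem_cell.2 ⟨by
      have := norm_le_norm_add_norm_sub' q p
      rw [dist_eq_norm] at hq'; linarith, hm⟩
    rcases hS v (mem_lay.2 ⟨hv, hv'⟩) q hc hq' with a | a
    · exact Or.inl ⟨a, hq⟩
    · exact Or.inr (mem_iUnion₂.2 ⟨v, a, hc, hq⟩)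
  refine (measureReal_mono hsub (fin_of_sub (x := p) (r := r)
    (union_subset inter_subset_right (iUnion₂_subset fun _ _ => inter_subset_right)))).trans ?_
  refine (measureReal_union_le _ _).trans (add_le_add le_rfl ?_)
  refine (measureReal_biUnion_finset_le _ _).trans ?_
  refine (Finset.sum_le_sum fun v hv => thin_vol hj hA (hZ v hv) p hr).trans (le_of_eq ?_)
  simp

lemma Chain.local_count (h : Chain W T X) {i m j : ℕ} (him : i + m ≤ T) (hj : j < d)
    {A A' : ℕ → ℝ} (hA : ∀ s, 0 ≤ A s) (hAA : ∀ s < j, A s ≤ A' s) {r D ε : ℝ} (hr : 0 < r)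
    (hD : 0 < D) (hε : 0 < ε) (hε1 : ε ≤ 1)
    (hA' : 6 * D / ε + 2 * D / r * ∑ s ∈ Finset.range j, A s ≤ A' j)
    {v0 p : E d} (hv0 : v0 ∈ X i) (hp : p ∈ cell W (X i) v0) (hpW : ‖p‖ ≤ W - r)
    (hcore : ∀ q ∈ cell W (X i) v0, p - ε • (q - p) ∈ cell W (X i) v0)
    (h2 : ∀ s : Fin d, supp (X i) (p + (2 * d * r) • EuclideanSpace.basisFun (Fin d) ℝ s) +
      supp (X i) (p - (2 * d * r) • EuclideanSpace.basisFun (Fin d) ℝ s) - 2 * supp (X i) p ≤ D)
    (hw : ∑ t ∈ Finset.range m, volume.real ((badS W X j A (i + t) ∪ decS W D X i m) ∩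
      closedBall p r) ≤ m * (r ^ d * om d) / 2)
    (ht : Thin j A (cell W (X i) v0)) (hn : ¬ Thin (j + 1) A' (cell W (X i) v0)) :
    m * (r ^ d * om d) / 2 * ((1 / 2) ^ d * om d) ≤ (2 * (2 * D / r) + 1) ^ j * 3 ^ (d - j) *
      ((∏ s ∈ Finset.range j, 2 * A s) * (4 * r) ^ (d - j)) := by
  classical
  set Y := (X i).filter fun x => ∃ p', dist p' p ≤ r ∧ supp (X i) p' - D ≤ ⟪x, p'⟫ with hY
  have hnear : ∀ y ∈ Y, ‖y - v0‖ ≤ 2 * D / r ∧ -(3 * D) ≤ ⟪y - v0, p⟫ := by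
    intro y hy
    obtain ⟨hy1, p', hp1, hp2⟩ := Finset.mem_filter.1 hy
    exact near (by omega) hr hv0 hy1 (mem_cell.1 hp).2 h2 hp1 hp2
  have hrange : ∀ y ∈ Y, ∀ q ∈ cell W (X i) v0, -(6 * D / ε) ≤ ⟪y - v0, q⟫ ∧ ⟪y - v0, q⟫ ≤ 0 := by
    intro y hy q hq
    have hy1 := (Finset.mem_filter.1 hy).1
    have hup : ∀ q ∈ cell W (X i) v0, ⟪y - v0, q⟫ ≤ 0 := fun q hq => by
      rw [inner_sub_left]; linarith [(mem_cell.1 hq).2 y hy1]
    refine ⟨?_, hup q hq⟩
    have a := hup _ (hcore q hq)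
    rw [inner_sub_right, inner_smul_right, inner_sub_right] at a
    have b := (hnear y hy).2
    rw [neg_le, le_div_iff₀ hε]
    nlinarith
  have hcard := thin_step hj hAA ht Y
    (fun x hx y hy => h.sep x (h.anti (Nat.zero_le i) (Finset.mem_filter.1 hx).1) y
      (h.anti (Nat.zero_le i) (Finset.mem_filter.1 hy).1)) v0 (ρ := 2 * D / r) (D := 6 * D / ε)
    (by positivity) (fun y hy => (hnear y hy).1) (fun y hy q hq q' hq' => by
      have a := hrange y hy q hq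
      have b := hrange y hy q' hq'
      rw [inner_sub_right, abs_le]; constructor <;> linarith [a.1, a.2, b.1, b.2]) hA' hn
  set B := (∏ s ∈ Finset.range j, 2 * A s) * (4 * r) ^ (d - j) with hB
  have hB0 : 0 ≤ B :=
    mul_nonneg (Finset.prod_nonneg fun s _ => by have := hA s; positivity) (by positivity)
  let Z : ℕ → Finset (E d) := fun t =>
    (lay X (i + t)).filter fun v => v ∈ Y ∧ Thin j A (cell W (X (i + t)) v)
  have hcov : ∀ t ∈ Finset.range m, r ^ d * om d ≤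
      volume.real ((badS W X j A (i + t) ∪ decS W D X i m) ∩ closedBall p r) + (Z t).card * B := by
    intro t ht
    have ht' := Finset.mem_range.1 ht
    refine h.cover (by omega) hj.le hA hr.le hpW _ (Z t)
      (fun v hv => (Finset.mem_filter.1 hv).2.2) fun v hv q hq hqp => ?_
    by_cases a : Thin j A (cell W (X (i + t)) v)
    · by_cases b : q ∈ decS W D X i m
      · exact Or.inl (Or.inr b)
      · refine Or.inr (Finset.mem_filter.2 ⟨hv, Finset.mem_filter.2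
          ⟨h.anti (Nat.le_add_right i t) (mem_lay.1 hv).1, q, hqp, ?_⟩, a⟩)
        have c : ¬ D ≤ supp (X i) q - supp (X (i + m)) q := fun c =>
          b ⟨mem_closedBall_zero_iff.2 (mem_cell.1 hq).1, c⟩
        have e := supp_eq (mem_lay.1 hv).1 (mem_cell.1 hq).2
        have f := supp_mono (h.nonempty him) (h.anti (show i + t ≤ i + m by omega)) q
        linarith [not_le.1 c]
    · exact Or.inl (Or.inl (mem_iUnion₂.2 ⟨v, mem_badV.2 ⟨hv, a⟩, hq⟩))
  have hsum := Finset.sum_le_sum hcov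
  rw [Finset.sum_add_distrib, Finset.sum_const, ← Finset.sum_mul, Finset.card_range,
    nsmul_eq_mul] at hsum
  have hZ := h.card_layers (Finset.range m) (fun t => i + t) (fun a _ b _ e => by simpa using e) Z
    (fun t _ => Finset.filter_subset _ _) (Y := Y)
    (fun t _ v hv => (Finset.mem_filter.1 hv).2.1)
  have k1 : m * (r ^ d * om d) / 2 ≤ Y.card * B := by
    have := mul_le_mul_of_nonneg_right hZ hB0
    linarith
  have hom : 0 < (1 / 2 : ℝ) ^ d * om d := by have := om_pos d; positivity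
  calc _ ≤ Y.card * B * ((1 / 2) ^ d * om d) := mul_le_mul_of_nonneg_right k1 hom.le
    _ = Y.card * ((1 / 2) ^ d * om d) * B := by ring
    _ ≤ _ := mul_le_mul_of_nonneg_right hcard hB0

lemma badM_le (hW : 0 ≤ W) (j : ℕ) (A : ℕ → ℝ) (i : ℕ) : badM W X j A i ≤ W ^ d * om d := by
  rw [← vol_cb (0 : E d) hW]
  exact sum_le_of_cells W (fun v hv => (mem_lay.1 (mem_badV.1 hv).1).1) _ (fun _ _ => subset_rfl)
    (fun _ _ => (cell_compact _ _ _).measurableSet) (fun _ _ => cell_sub _ _ _)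
    measure_closedBall_lt_top.ne

lemma badM_nonneg (j : ℕ) (A : ℕ → ℝ) (i : ℕ) : 0 ≤ badM W X j A i :=
  Finset.sum_nonneg fun _ _ => measureReal_nonneg

lemma badS_le (j : ℕ) (A : ℕ → ℝ) (i : ℕ) : volume.real (badS W X j A i) ≤ badM W X j A i :=
  measureReal_biUnion_finset_le _ _

lemma badS_meas (j : ℕ) (A : ℕ → ℝ) (i : ℕ) : MeasurableSet (badS W X j A i) :=
  Finset.measurableSet_biUnion _ fun _ _ => (cell_compact _ _ _).measurableSet

lemma badS_sub (j : ℕ) (A : ℕ → ℝ) (i : ℕ) : badS W X j A i ⊆ closedBall 0 W :=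
  iUnion₂_subset fun _ _ => cell_sub _ _ _

lemma slide {T m : ℕ} (b : ℕ → ℝ) (hb : ∀ t < T, 0 ≤ b t) :
    ∑ i ∈ (Finset.range T).filter (fun i => i + m ≤ T), ∑ t ∈ Finset.range m, b (i + t) ≤
      m * ∑ t ∈ Finset.range T, b t := by
  rw [Finset.sum_comm]
  refine (Finset.sum_le_sum (g := fun _ => ∑ t ∈ Finset.range T, b t) fun t ht => ?_).trans
    (by simp)
  have ht' := Finset.mem_range.1 ht
  rw [← Finset.sum_image (g := fun i => i + t) (f := b) (fun a _ b _ e => by simpa using e)]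
  refine Finset.sum_le_sum_of_subset_of_nonneg ?_ fun s hs _ => hb s (Finset.mem_range.1 hs)
  intro s hs
  obtain ⟨i, hi, rfl⟩ := Finset.mem_image.1 hs
  have := (Finset.mem_filter.1 hi).2
  exact Finset.mem_range.2 (by omega)

end Layer71
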