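import Pool.Agent.Lib.MP_71cb23_co.Step

open MeasureTheory Metric Set Module
open scoped RealInnerProductSpace

namespace Layer71

variable {d : ℕ} {W : ℝ} {T : ℕ} {X : ℕ → Finset (E d)}

noncomputable def aI (W : ℝ) (X : ℕ → Finset (E d)) (i : ℕ) : ℝ :=
  ∫ p in closedBall (0 : E d) W, supp (X i) p

lemma Chain.integ (h : Chain W T X) {i : ℕ} (hi : i ≤ T) :
    IntegrableOn (supp (X i)) (closedBall (0 : E d) W) :=
  (h.cont hi).continuousOn.integrableOn_compact (isCompact_closedBall _ _)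

lemma Chain.dec_le (h : Chain W T X) {i m : ℕ} (him : i + m ≤ T) {D : ℝ} (hD : 0 < D) :
    volume.real (decS W D X i m) ≤ (aI W X i - aI W X (i + m)) / D := by
  have := markov_U (W := W) hD ((h.cont (show i ≤ T by omega)).sub (h.cont him))
    (fun p => sub_nonneg.2 (supp_mono (h.nonempty him) (h.anti (Nat.le_add_right i m)) p))
  refine this.trans (le_of_eq ?_)
  rw [aI, aI, ← integral_sub (h.integ (by omega)) (h.integ him)]; rfl

lemma Chain.aI_anti (h : Chain W T X) {i : ℕ} (hi : i < T) : aI W X (i + 1) ≤ aI W X i :=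
  integral_mono (h.integ hi) (h.integ hi.le)
    fun p => supp_mono (h.nonempty hi) (h.anti (Nat.le_succ i)) p

lemma Chain.aI_abs (h : Chain W T X) (hW : 0 ≤ W) {i : ℕ} (hi : i ≤ T) :
    |aI W X i| ≤ W ^ 2 * (W ^ d * om d) := by
  rw [← vol_cb (0 : E d) hW]
  exact norm_setIntegral_le_of_norm_le_const (μ := volume) (f := supp (X i)) (C := W ^ 2)
    measure_closedBall_lt_top fun p hp => supp_abs (h.nonempty hi) (h.bdd' i) (mem_closedBall_zero_iff.1 hp)

lemma Chain.step_one (h : Chain W T X) (hW : 0 < W) {i m j : ℕ} (him : i + m ≤ T) (hm : 0 < m)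
    (hj : j < d) {A A' : ℕ → ℝ} (hA : ∀ s, 0 ≤ A s) (hAA : ∀ s < j, A s ≤ A' s) {r D t : ℝ}
    (hr : 0 < r) (hD : 0 < D) (ht : 0 < t) (ht1 : t ≤ 1) (hrW : 2 * d * r ≤ W)
    (hA' : 6 * D / (t / ((d : ℝ) + 2)) + 2 * D / r * ∑ s ∈ Finset.range j, A s ≤ A' j)
    (hK : (2 * (2 * D / r) + 1) ^ j * 3 ^ (d - j) *
      ((∏ s ∈ Finset.range j, 2 * A s) * (4 * r) ^ (d - j)) <
      m * (r ^ d * om d) / 2 * ((1 / 2) ^ d * om d)) :
    badM W X (j + 1) A' i ≤ badM W X j A i +
      (d * t + d * r / W + 8 * d ^ 4 * r ^ 2 / D) * (W ^ d * om d) +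
      2 / m * ∑ s ∈ Finset.range m, badM W X j A (i + s) +
      2 * (aI W X i - aI W X (i + m)) / D := by
  classical
  have hd : (1 : ℝ) ≤ d := by exact_mod_cast (show 1 ≤ d by omega)
  have hm' : (0 : ℝ) < m := by exact_mod_cast hm
  have hom := om_pos d
  have hiT : i ≤ T := by omega
  set Ω := W ^ d * om d with hΩ
  set U := closedBall (0 : E d) W with hU
  set e := EuclideanSpace.basisFun (Fin d) ℝ with he
  set S : ℕ → Set (E d) := fun s => badS W X j A (i + s) ∪ decS W D X i m with hS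
  set E1 := U \ closedBall 0 (W - r) with hE1
  set E2 := ⋃ s ∈ (Finset.univ : Finset (Fin d)), U ∩ {p | D ≤ supp (X i) (p + (2 * d * r) • e s) +
    supp (X i) (p - (2 * d * r) • e s) - 2 * supp (X i) p} with hE2
  set E3 := U ∩ {p | m * (r ^ d * om d) / 2 ≤
    ∑ s ∈ Finset.range m, volume.real (S s ∩ closedBall p r)} with hE3
  have v1 : volume.real E1 ≤ d * r / W * Ω :=
    annulus (by nlinarith) hW (vol_cb _ hW.le) measure_closedBall_lt_top.ne
      (closedBall_subset_closedBall (by linarith))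
  have v2 : volume.real E2 ≤ 8 * d ^ 4 * r ^ 2 / D * Ω := by
    refine (measureReal_biUnion_finset_le _ _).trans ?_
    have hn : ∀ s, ‖(2 * d * r) • e s‖ = 2 * d * r := fun s => by
      rw [norm_smul, e.orthonormal.1 s, mul_one, Real.norm_of_nonneg (by positivity)]
    refine (Finset.sum_le_sum fun s _ => second_diff hW hD (h.cont hiT) (z := (2 * d * r) • e s)
      ((hn s).le.trans hrW) (fun p => supp_lip (h.nonempty hiT) (h.bdd' i) p _)
      (fun p => supp_conv (h.nonempty hiT) p _)).trans (le_of_eq ?_)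
    simp only [hn, Finset.sum_const, Finset.card_univ, Fintype.card_fin, nsmul_eq_mul]
    rw [hΩ]; ring
  have hdm : MeasurableSet (decS W D X i m) := measurableSet_closedBall.inter
    (isClosed_le continuous_const ((h.cont hiT).sub (h.cont him))).measurableSet
  have v3 : volume.real E3 ≤ 2 / m * ∑ s ∈ Finset.range m, badM W X j A (i + s) +
      2 * (aI W X i - aI W X (i + m)) / D := by
    refine (markov_ball (Finset.range m) S (fun s _ => (badS_meas _ _ _).union hdm)
      (fun s _ => fin_of_sub (union_subset (badS_sub _ _ _) inter_subset_left)) hr.le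
      (by positivity) U).trans ?_
    have a : ∑ s ∈ Finset.range m, volume.real (S s) ≤ ∑ s ∈ Finset.range m, badM W X j A (i + s) +
        m * ((aI W X i - aI W X (i + m)) / D) := by
      refine (Finset.sum_le_sum fun s _ => (measureReal_union_le _ _).trans
        (add_le_add (badS_le j A (i + s)) (h.dec_le him hD))).trans (le_of_eq ?_)
      rw [Finset.sum_add_distrib]; simp
    have b : (∑ s ∈ Finset.range m, volume.real (S s)) * (r ^ d * om d) / (m * (r ^ d * om d) / 2)
        = 2 / m * ∑ s ∈ Finset.range m, volume.real (S s) := by field_simp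
    rw [b]
    refine (mul_le_mul_of_nonneg_left a (by positivity)).trans (le_of_eq ?_)
    field_simp
  set N := (badV W X (j + 1) A' i).filter fun v => Thin j A (cell W (X i) v) with hN
  have hsplit : badM W X (j + 1) A' i ≤ badM W X j A i + ∑ v ∈ N, volume.real (cell W (X i) v) := by
    unfold badM
    rw [← Finset.sum_filter_not_add_sum_filter (badV W X (j + 1) A' i)
      (fun v => Thin j A (cell W (X i) v))]
    refine add_le_add (Finset.sum_le_sum_of_subset_of_nonneg ?_ fun _ _ _ => measureReal_nonneg)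
      le_rfl
    intro v hv
    obtain ⟨a, b⟩ := Finset.mem_filter.1 hv
    exact mem_badV.2 ⟨(mem_badV.1 a).1, b⟩
  choose Q hQ1 hQ2 hQ3 hQ4 using fun v : E d =>
    core (cell_compact W (X i) v) (cell_convex W (X i) v) ht ht1
  have hNX : N ⊆ X i := fun v hv => (mem_lay.1 (mem_badV.1 (Finset.mem_filter.1 hv).1).1).1
  have hQE : ∀ v ∈ N, Q v ⊆ E1 ∪ E2 ∪ E3 := by
    intro v hv p hp
    by_contra hc
    simp only [mem_union, not_or] at hc
    obtain ⟨⟨c1, c2⟩, c3⟩ := hc
    have hpU : p ∈ U := cell_sub _ _ _ (hQ1 v hp)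
    refine absurd (h.local_count him hj hA hAA hr hD (ε := t / ((d : ℝ) + 2)) (by positivity)
      ((div_le_one (by positivity)).2 (by linarith)) hA' (hNX hv) (hQ1 v hp) ?_ (hQ4 v p hp) ?_ ?_
      (Finset.mem_filter.1 hv).2 (mem_badV.1 (Finset.mem_filter.1 hv).1).2) (not_le.2 hK)
    · by_contra a
      exact c1 ⟨hpU, fun b => a (mem_closedBall_zero_iff.1 b)⟩
    · intro s
      by_contra a
      exact c2 (mem_iUnion₂.2 ⟨s, Finset.mem_univ s, hpU, (not_le.1 a).le⟩)
    · by_contra a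
      exact c3 ⟨hpU, (not_le.1 a).le⟩
  have hfin : volume (E1 ∪ E2 ∪ E3) ≠ ⊤ := fin_of_sub (x := 0) (r := W)
    (union_subset (union_subset sdiff_subset (iUnion₂_subset fun _ _ => inter_subset_left))
      inter_subset_left)
  have s1 := sum_le_of_cells W hNX Q (fun v _ => hQ1 v) (fun v _ => hQ2 v) hQE hfin
  have s2 : ∑ v ∈ N, volume.real (cell W (X i) v) ≤ Ω := by
    rw [hΩ, ← vol_cb (0 : E d) hW.le]
    exact sum_le_of_cells W hNX _ (fun _ _ => subset_rfl)
      (fun _ _ => (cell_compact _ _ _).measurableSet) (fun _ _ => cell_sub _ _ _)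
      measure_closedBall_lt_top.ne
  have s3 := Finset.sum_le_sum fun v (_ : v ∈ N) => hQ3 v
  rw [Finset.sum_add_distrib, ← Finset.mul_sum] at s3
  have s4 := (measureReal_union_le (μ := volume) (E1 ∪ E2) E3).trans
    (add_le_add (measureReal_union_le E1 E2) le_rfl)
  have s5 := mul_le_mul_of_nonneg_left s2 (show 0 ≤ d * t by positivity)
  linarith

lemma Chain.step (h : Chain W T X) (hW : 0 < W) {m j : ℕ} (hm : 0 < m)
    (hj : j < d) {A A' : ℕ → ℝ} (hA : ∀ s, 0 ≤ A s) (hAA : ∀ s < j, A s ≤ A' s) {r D t : ℝ}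
    (hr : 0 < r) (hD : 0 < D) (ht : 0 < t) (ht1 : t ≤ 1) (hrW : 2 * d * r ≤ W)
    (hA' : 6 * D / (t / ((d : ℝ) + 2)) + 2 * D / r * ∑ s ∈ Finset.range j, A s ≤ A' j)
    (hK : (2 * (2 * D / r) + 1) ^ j * 3 ^ (d - j) *
      ((∏ s ∈ Finset.range j, 2 * A s) * (4 * r) ^ (d - j)) <
      m * (r ^ d * om d) / 2 * ((1 / 2) ^ d * om d)) :
    ∑ i ∈ Finset.range T, badM W X (j + 1) A' i ≤ 3 * ∑ i ∈ Finset.range T, badM W X j A i +
      (T * (d * t + d * r / W + 8 * d ^ 4 * r ^ 2 / D) + m + 4 * m * W ^ 2 / D) *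
        (W ^ d * om d) := by
  classical
  have hm' : (0 : ℝ) < m := by exact_mod_cast hm
  have hom := om_pos d
  set Ω := W ^ d * om d with hΩ
  have hΩ0 : 0 < Ω := by positivity
  set G := (Finset.range T).filter (fun i => i + m ≤ T) with hG
  rw [← Finset.sum_filter_add_sum_filter_not (Finset.range T) (fun i => i + m ≤ T)]
  have a1 : ∑ i ∈ (Finset.range T).filter (fun i => ¬ i + m ≤ T), badM W X (j + 1) A' i ≤ m * Ω := by
    refine (Finset.sum_le_card_nsmul _ _ Ω fun i _ => badM_le hW.le _ _ _).trans ?_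
    rw [nsmul_eq_mul]
    refine mul_le_mul_of_nonneg_right ?_ hΩ0.le
    have : ((Finset.range T).filter (fun i => ¬ i + m ≤ T)) ⊆ Finset.Ico (T - m) T := by
      intro i hi
      obtain ⟨a, b⟩ := Finset.mem_filter.1 hi
      exact Finset.mem_Ico.2 ⟨by omega, Finset.mem_range.1 a⟩
    have := Finset.card_le_card this
    rw [Nat.card_Ico] at this
    exact_mod_cast this.trans (by omega)
  have a2 := Finset.sum_le_sum fun i (hi : i ∈ G) =>
    h.step_one hW (Finset.mem_filter.1 hi).2 hm hj hA hAA hr hD ht ht1 hrW hA' hK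
  rw [Finset.sum_add_distrib, Finset.sum_add_distrib, Finset.sum_add_distrib, Finset.sum_const,
    ← Finset.mul_sum, ← Finset.sum_div, ← Finset.mul_sum, nsmul_eq_mul] at a2
  have b1 : ∑ i ∈ G, badM W X j A i ≤ ∑ i ∈ Finset.range T, badM W X j A i :=
    Finset.sum_le_sum_of_subset_of_nonneg (Finset.filter_subset _ _) fun _ _ _ => badM_nonneg _ _ _
  have b2 : (G.card : ℝ) ≤ T := by
    exact_mod_cast (Finset.card_filter_le _ _).trans (Finset.card_range T).le
  have b3 := slide (T := T) (m := m) (badM W X j A) fun _ _ => badM_nonneg _ _ _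
  have b4 := slide (T := T) (m := m) (fun s => aI W X s - aI W X (s + 1))
    fun s hs => sub_nonneg.2 (h.aI_anti hs)
  have e1 : ∀ i n, ∑ s ∈ Finset.range n, (aI W X (i + s) - aI W X (i + s + 1)) =
      aI W X i - aI W X (i + n) := fun i n =>
    Finset.sum_range_sub' (fun s => aI W X (i + s)) n
  have e2 := Finset.sum_range_sub' (fun s => aI W X s) T
  simp only [e1, e2] at b4
  have b5 : aI W X 0 - aI W X T ≤ 2 * (W ^ 2 * Ω) := by
    have := abs_le.1 (h.aI_abs hW.le (Nat.zero_le T))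
    have := abs_le.1 (h.aI_abs hW.le le_rfl)
    linarith [this.1]
  have c1 : 2 / m * ∑ i ∈ G, ∑ s ∈ Finset.range m, badM W X j A (i + s) ≤
      2 * ∑ i ∈ Finset.range T, badM W X j A i :=
    (mul_le_mul_of_nonneg_left b3 (by positivity)).trans (le_of_eq (by field_simp))
  have c2 : (2 * ∑ i ∈ G, (aI W X i - aI W X (i + m))) / D ≤ 4 * m * W ^ 2 / D * Ω := by
    rw [div_mul_eq_mul_div]
    refine div_le_div_of_nonneg_right ?_ hD.le
    nlinarith [mul_le_mul_of_nonneg_left b5 hm'.le]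
  have c3 := mul_le_mul_of_nonneg_right b2
    (show 0 ≤ (d * t + d * r / W + 8 * d ^ 4 * r ^ 2 / D) * Ω by positivity)
  linarith

end Layer71
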