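import Pool.Agent.Lib.MP_71cb23_co.Meas

open MeasureTheory Metric Set Module
open scoped RealInnerProductSpace

namespace Layer71

variable {d : ℕ}

/-- `P` has width at most `A s` in the `s`-th direction of an orthonormal basis, for `s < j` -/
def Thin (j : ℕ) (A : ℕ → ℝ) (P : Set (E d)) : Prop :=
  ∃ b : OrthonormalBasis (Fin d) ℝ (E d), ∀ s : Fin d, s.val < j → ∀ q ∈ P, ∀ q' ∈ P,
    |⟪b s, q - q'⟫| ≤ A s

lemma thin_zero (A : ℕ → ℝ) (P : Set (E d)) : Thin 0 A P :=
  ⟨EuclideanSpace.basisFun (Fin d) ℝ, fun _ h => absurd h (Nat.not_lt_zero _)⟩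

lemma prod_split {j : ℕ} (hj : j ≤ d) (f : ℕ → ℝ) (y : ℝ) :
    ∏ s : Fin d, (if s.val < j then f s else y) = (∏ s ∈ Finset.range j, f s) * y ^ (d - j) := by
  rw [Fin.prod_univ_eq_prod_range (fun s => if s < j then f s else y) d,
    ← Finset.prod_range_mul_prod_Ico _ hj]
  congr 1
  · exact Finset.prod_congr rfl fun s hs => if_pos (Finset.mem_range.1 hs)
  · rw [Finset.prod_congr rfl (fun s hs => if_neg (not_lt.2 (Finset.mem_Ico.1 hs).1))]; simp

lemma thin_vol {j : ℕ} (hj : j ≤ d) {A : ℕ → ℝ} (hA : ∀ s, 0 ≤ A s) {P : Set (E d)}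
    (h : Thin j A P) (p : E d) {r : ℝ} (hr : 0 ≤ r) :
    volume.real (P ∩ closedBall p r) ≤ (∏ s ∈ Finset.range j, 2 * A s) * (4 * r) ^ (d - j) := by
  rcases (P ∩ closedBall p r).eq_empty_or_nonempty with e | ⟨q0, hq0, hq0'⟩
  · rw [e, measureReal_empty]
    exact mul_nonneg (Finset.prod_nonneg fun s _ => by have := hA s; positivity) (by positivity)
  obtain ⟨b, hb⟩ := h
  have := real_le_box (b := b) (z := q0) (w := fun s => if s.val < j then A s else 2 * r)
    (fun s => by split_ifs; exacts [hA s, by positivity]) (S := P ∩ closedBall p r) (by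
      rintro q ⟨hq, hq'⟩ s
      simp only
      split_ifs with hs
      · exact hb s hs q hq q0 hq0
      · refine (abs_real_inner_le_norm _ _).trans ?_
        rw [b.orthonormal.1 s, one_mul, ← dist_eq_norm]
        have := dist_triangle_right q q0 p
        have := mem_closedBall.1 hq'
        have := mem_closedBall.1 hq0'
        linarith)
  refine this.trans (le_of_eq ?_)
  rw [← prod_split hj (fun s => 2 * A s) (4 * r)]
  refine Finset.prod_congr rfl fun s _ => ?_
  split_ifs <;> ring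

lemma sum_lt_eq {j : ℕ} (hj : j ≤ d) (f : ℕ → ℝ) :
    ∑ s ∈ Finset.univ.filter (fun s : Fin d => s.val < j), f s = ∑ s ∈ Finset.range j, f s := by
  rw [Finset.sum_filter, Fin.sum_univ_eq_sum_range (fun s => if s < j then f s else 0) d,
    ← Finset.sum_filter]
  congr 1; ext s; simp; omega

lemma thin_step {j : ℕ} (hj : j < d) {A A' : ℕ → ℝ} (hAA : ∀ s < j, A s ≤ A' s) {P : Set (E d)}
    (h : Thin j A P) (Y : Finset (E d)) (hsep : ∀ x ∈ Y, ∀ y ∈ Y, x ≠ y → 1 ≤ dist x y)
    (x0 : E d) {ρ D : ℝ} (hρ : 0 ≤ ρ) (hY : ∀ y ∈ Y, ‖y - x0‖ ≤ ρ)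
    (hD : ∀ y ∈ Y, ∀ q ∈ P, ∀ q' ∈ P, |⟪y - x0, q - q'⟫| ≤ D)
    (hA' : D + ρ * ∑ s ∈ Finset.range j, A s ≤ A' j) (hn : ¬ Thin (j + 1) A' P) :
    Y.card * ((1 / 2) ^ d * om d) ≤ (2 * ρ + 1) ^ j * 3 ^ (d - j) := by
  classical
  obtain ⟨b, hb⟩ := h
  set J := Finset.univ.filter (fun s : Fin d => s.val < j) with hJ
  let perp : E d → E d := fun y => y - ∑ s ∈ J, ⟪b s, y⟫ • b s
  have hperp : ∀ y (s : Fin d), ⟪b s, perp y⟫ = if s.val < j then 0 else ⟪b s, y⟫ := by
    intro y s
    simp only [perp, inner_sub_right]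
    split_ifs with hs
    · rw [b.orthonormal.inner_right_sum _ (by simp [hJ, hs])]; simp
    · rw [inner_sum, Finset.sum_eq_zero, sub_zero]
      intro t ht
      rw [inner_smul_right, b.orthonormal.2, mul_zero]
      rintro rfl
      exact hs (by simpa [hJ] using ht)
  have hsmall : ∀ y ∈ Y, ‖perp (y - x0)‖ < 1 := by
    intro y hy
    by_contra hge
    push Not at hge
    set u := perp (y - x0) with hu
    have hu0 : 0 < ‖u‖ := by linarith
    let v : Fin d → E d := Function.update b ⟨j, hj⟩ ((‖u‖⁻¹) • u)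
    have hv1 : ∀ s : Fin d, s.val < j → v s = b s := fun s hs =>
      Function.update_of_ne (by rintro rfl; exact lt_irrefl _ hs) _ _
    have hv2 : v ⟨j, hj⟩ = (‖u‖⁻¹) • u := Function.update_self _ _ _
    have hcase : ∀ s : Fin d, s.val < j + 1 → s.val < j ∨ s = ⟨j, hj⟩ := fun s hs => by
      rcases Nat.lt_succ_iff_lt_or_eq.1 hs with h | h
      · exact Or.inl h
      · exact Or.inr (Fin.ext h)
    have hon : Orthonormal ℝ (({s : Fin d | s.val < j + 1} : Set (Fin d)).domRestrict v) := by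
      constructor
      · rintro ⟨s, hs⟩
        show ‖v s‖ = 1
        rcases hcase s hs with h | rfl
        · rw [hv1 s h]; exact b.orthonormal.1 s
        · rw [hv2, norm_smul, norm_inv, norm_norm, inv_mul_cancel₀ hu0.ne']
      · rintro ⟨s, hs⟩ ⟨t, ht⟩ hst
        have hst' : s ≠ t := fun e => hst (Subtype.ext e)
        show ⟪v s, v t⟫ = 0
        rcases hcase s hs with h | rfl <;> rcases hcase t ht with h' | rfl
        · rw [hv1 s h, hv1 t h']; exact b.orthonormal.2 hst'
        · rw [hv1 s h, hv2, inner_smul_right, hu, hperp, if_pos h, mul_zero]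
        · rw [hv1 t h', hv2, real_inner_comm, inner_smul_right, hu, hperp, if_pos h', mul_zero]
        · exact absurd rfl hst'
    obtain ⟨b', hb'⟩ := hon.exists_orthonormalBasis_extension_of_card_eq (by simp)
    refine hn ⟨b', fun s hs q hq q' hq' => ?_⟩
    rw [hb' s hs]
    rcases hcase s hs with h | rfl
    · rw [hv1 s h]; exact (hb s h q hq q' hq').trans (hAA s h)
    · rw [hv2, real_inner_smul_left, abs_mul, abs_inv, abs_norm]
      have h1 : |⟪u, q - q'⟫| ≤ D + ρ * ∑ s ∈ Finset.range j, A s := by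
        simp only [hu, perp]
        rw [inner_sub_left (y - x0), sum_inner]
        refine (abs_sub _ _).trans (add_le_add (hD y hy q hq q' hq') ?_)
        rw [← sum_lt_eq hj.le, Finset.mul_sum]
        refine (Finset.abs_sum_le_sum_abs _ _).trans (Finset.sum_le_sum fun t ht => ?_)
        rw [real_inner_smul_left, abs_mul]
        refine mul_le_mul ?_ (hb t (by simpa [hJ] using ht) q hq q' hq') (abs_nonneg _) hρ
        refine (abs_real_inner_le_norm _ _).trans ?_
        rw [b.orthonormal.1 t, one_mul]; exact hY y hy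
      have h2 : ‖u‖⁻¹ ≤ 1 := inv_le_one_of_one_le₀ hge
      calc ‖u‖⁻¹ * |⟪u, q - q'⟫| ≤ 1 * |⟪u, q - q'⟫| :=
            mul_le_mul_of_nonneg_right h2 (abs_nonneg _)
        _ ≤ _ := by rw [one_mul]; exact h1.trans hA'
  have := pack (b := b) (z := x0) (w := fun s => if s.val < j then ρ else 1)
    (fun s => by split_ifs; exacts [hρ, zero_le_one]) Y hsep (by
      intro y hy s
      simp only
      split_ifs with hs
      · refine (abs_real_inner_le_norm _ _).trans ?_
        rw [b.orthonormal.1 s, one_mul]; exact hY y hy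
      · have := hperp (y - x0) s
        rw [if_neg hs] at this
        rw [← this]
        refine (abs_real_inner_le_norm _ _).trans ?_
        rw [b.orthonormal.1 s, one_mul]; exact (hsmall y hy).le)
  refine this.trans (le_of_eq ?_)
  have e := prod_split hj.le (fun _ => 2 * ρ + 1) 3
  rw [Finset.prod_const, Finset.card_range] at e
  rw [← e]
  refine Finset.prod_congr rfl fun s _ => ?_
  split_ifs <;> norm_num

/-- local estimate at a direction `p` with small second differences -/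
lemma near {Y : Finset (E d)} {x0 x p p' : E d} {r D : ℝ} (hd : 0 < d) (hr : 0 < r)
    (hx0 : x0 ∈ Y) (hx : x ∈ Y) (hp : ∀ y ∈ Y, ⟪y, p⟫ ≤ ⟪x0, p⟫)
    (h2 : ∀ s : Fin d, supp Y (p + (2 * d * r) • EuclideanSpace.basisFun (Fin d) ℝ s) +
      supp Y (p - (2 * d * r) • EuclideanSpace.basisFun (Fin d) ℝ s) - 2 * supp Y p ≤ D)
    (hp' : dist p' p ≤ r) (hx' : supp Y p' - D ≤ ⟪x, p'⟫) :
    ‖x - x0‖ ≤ 2 * D / r ∧ -(3 * D) ≤ ⟪x - x0, p⟫ := by
  set e := EuclideanSpace.basisFun (Fin d) ℝ with he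
  have hd' : (0 : ℝ) < d := by exact_mod_cast hd
  have hs := supp_eq hx0 hp
  set a0 := -⟪x - x0, p⟫ with ha0
  have hco : ∀ s : Fin d, 2 * d * r * |⟪e s, x - x0⟫| ≤ D + a0 := by
    intro s
    have k := h2 s
    have a1 := le_supp hx (p + (2 * d * r) • e s)
    have a2 := le_supp hx (p - (2 * d * r) • e s)
    have a3 := le_supp hx0 (p + (2 * d * r) • e s)
    have a4 := le_supp hx0 (p - (2 * d * r) • e s)
    simp only [inner_add_right, inner_sub_right, inner_smul_right] at a1 a2 a3 a4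
    rw [← abs_of_pos (show 0 < 2 * d * r by positivity), ← abs_mul, real_inner_comm, ha0]
    simp only [inner_sub_left]
    rw [abs_le]; constructor <;> linarith
  have hn : ‖x - x0‖ ≤ ∑ s, |⟪e s, x - x0⟫| := by
    conv_lhs => rw [← e.sum_repr' (x - x0)]
    refine (norm_sum_le _ _).trans (le_of_eq (Finset.sum_congr rfl fun s _ => ?_))
    rw [norm_smul, e.orthonormal.1 s, mul_one, Real.norm_eq_abs]
  have hn2 : 2 * r * ‖x - x0‖ ≤ D + a0 := by
    have : 2 * d * r * ∑ s, |⟪e s, x - x0⟫| ≤ d * (D + a0) := by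
      rw [Finset.mul_sum]
      refine (Finset.sum_le_sum fun s _ => hco s).trans (le_of_eq ?_)
      simp; ring
    have h3 : (d : ℝ) * (2 * r * ‖x - x0‖) ≤ d * (D + a0) := by
      refine le_trans ?_ this
      nlinarith [mul_le_mul_of_nonneg_left hn (show 0 ≤ 2 * d * r by positivity)]
    exact le_of_mul_le_mul_left h3 hd'
  have h4 : a0 ≤ D + r * ‖x - x0‖ := by
    have b1 := le_supp hx0 p'
    have b2 : ⟪x - x0, p' - p⟫ ≤ ‖x - x0‖ * r := by
      refine (real_inner_le_norm _ _).trans (mul_le_mul_of_nonneg_left ?_ (norm_nonneg _))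
      rwa [← dist_eq_norm]
    rw [inner_sub_right, inner_sub_left x x0 p'] at b2
    linarith
  refine ⟨?_, by linarith⟩
  rw [le_div_iff₀ hr]; linarith

end Layer71
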